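import Pool.Agent.MP_7b45f6_mp.H32.Mv

/-!
# Transversal layers and free connections
-/

set_option autoImplicit false

namespace Pool.Agent.MP_7b45f6_mp.H32

open Classical

/-- The list crosses the layer `x i = c` only perpendicularly. -/
def Tr (w : List P) (i : Fin 3) (c : ℤ) : Prop :=
  ∀ u v, Nb w u v → u i = c → Adj u v ∧ u i ≠ v i

/-- `x` lies on the line through `p` in direction `i`. -/
def On (i : Fin 3) (p x : P) : Prop := ∀ k, k ≠ i → x k = p k

/-- `q` is reached from `a` by at most `m` steps through free sites of the half-space. -/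
inductive Conn (w : List P) (a : P) : P → ℕ → Prop
  | refl (m : ℕ) : Conn w a a m
  | step {q x : P} {m : ℕ} : Conn w a q m → Adj q x → x ∉ w → 0 ≤ x 2 → Conn w a x (m + 1)

theorem On.eq {i : Fin 3} {p x : P} (h : On i p x) (hi : x i = p i) : x = p := by
  funext k
  by_cases hk : k = i
  · rw [hk, hi]
  · exact h k hk

theorem on_update (i : Fin 3) (p : P) (y : ℤ) : On i p (Function.update p i y) :=
  fun _ hk => Function.update_of_ne hk _ _

theorem on_add (i : Fin 3) (p : P) : On i p (p + ev i) := fun k hk => by simp [ev_ne hk]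

theorem on_sub (i : Fin 3) (p : P) : On i p (p - ev i) := fun k hk => by simp [ev_ne hk]

theorem On.trans {i : Fin 3} {p q x : P} (h : On i p q) (h' : On i q x) : On i p x :=
  fun k hk => (h' k hk).trans (h k hk)

theorem On.symm {i : Fin 3} {p q : P} (h : On i p q) : On i q p := fun k hk => (h k hk).symm

theorem Tr.ofIn {w w' : List P} {i : Fin 3} {c : ℤ} (h : Tr w i c) (h' : w' <:+: w) : Tr w' i c :=
  fun u v a => h u v (a.ofIn h')

theorem Tr.reverse {w : List P} {i : Fin 3} {c : ℤ} (h : Tr w i c) : Tr w.reverse i c :=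
  fun u v a => h u v a.reverse

/-- The intersection of two transversal layers is free. -/
theorem Tr.free {w : List P} {i j : Fin 3} {x : P} (hw : 2 ≤ w.length) (hij : i ≠ j)
    (hi : Tr w i (x i)) (hj : Tr w j (x j)) : x ∉ w := fun hx => by
  obtain ⟨y, hy⟩ := exists_nb hw hx
  obtain ⟨h1, h2⟩ := hi x y hy rfl
  have h3 := (hj x y hy rfl).2
  have h4 := two_coord_le hij x y
  have h5 : d1 x y = 1 := h1
  omega

variable {S : Set P} {i : Fin 3}

theorem Tr.ins {w : List P} {k : Fin 3} {c : ℤ} (h : Tr w k c) (hk : k ≠ i)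
    (hS : ∀ x y, x k = c → Adj x y → x k ≠ y k → (x ∈ S ↔ y ∈ S)) : Tr (ins S i w) k c := by
  intro x y hxy hx
  have e : ∀ z : P, (z + ev i) k = z k := fun z => by simp [ev_ne hk]
  obtain ⟨u, v, a, ⟨rfl, rfl, b⟩ | ⟨b, c1, c2, d⟩⟩ := nb_ins hxy
  · rw [Ph_ne hk] at hx
    obtain ⟨h1, h2⟩ := h u v a hx
    exact ⟨adj_Ph h1 (b h1), by rwa [Ph_ne hk, Ph_ne hk]⟩
  · exfalso
    have h1 : u k ≠ c := fun hu => c1 ((hS u v hu b (h u v a hu).2).2 c2)
    have h2 : v k ≠ c := fun hv => c1 ((hS v u hv b.symm (h v u a.symm hv).2).1 c2)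
    rcases d with d | d | d | d <;> rw [d.1] at hx
    exacts [h1 hx, h1 (e u ▸ hx), h1 (e u ▸ hx), h2 (e v ▸ hx)]

theorem Ph_flat (c : ℤ) (p : P) : Ph (flat i c) i p i = if c < p i then p i + 1 else p i := by
  unfold Ph
  simp only [mem_flat]
  split_ifs <;> simp

theorem tr_flat_aux {w : List P} {c c' : ℤ}
    (h : ∀ u v, Nb w u v → Ph (flat i c) i u i = c' → Adj u v ∧ u i ≠ v i) :
    Tr (ins (flat i c) i w) i c' := by
  intro x y hxy hx
  obtain ⟨u, v, a, ⟨rfl, rfl, b⟩ | ⟨b, c1, c2, d⟩⟩ := nb_ins hxy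
  · obtain ⟨h1, h2⟩ := h u v a hx
    refine ⟨adj_Ph h1 (b h1), ?_⟩
    rw [Ph_flat, Ph_flat]
    split_ifs <;> omega
  · rw [mem_flat] at c1 c2
    have h1 := (adj_add u v (ev i)).2 b
    rcases d with ⟨rfl, rfl⟩ | ⟨rfl, rfl⟩ | ⟨rfl, rfl⟩ | ⟨rfl, rfl⟩
    · exact ⟨adj_ev _ _, by simp⟩
    · exact ⟨(adj_ev _ _).symm, by simp⟩
    · exact ⟨h1, by simp; omega⟩
    · exact ⟨h1.symm, by simp; omega⟩

theorem tr_flat_new (w : List P) (c : ℤ) : Tr (ins (flat i c) i w) i (c + 1) :=
  tr_flat_aux fun u v _ hu => by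
    rw [Ph_flat] at hu
    split_ifs at hu <;> omega

theorem Tr.flat_ne {w : List P} {k : Fin 3} {c' : ℤ} (h : Tr w k c') (hk : k ≠ i) (c : ℤ) :
    Tr (H32.ins (flat i c) i w) k c' :=
  h.ins hk fun x y _ h1 h2 => by
    have := two_coord_le hk x y
    have h3 : d1 x y = 1 := h1
    simp only [mem_flat]
    omega

theorem Tr.flat_same {w : List P} {c' : ℤ} (h : Tr w i c') (c : ℤ) :
    Tr (H32.ins (flat i c) i w) i (if c < c' then c' + 1 else c') :=
  tr_flat_aux fun u v a hu => h u v a (by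
    rw [Ph_flat] at hu
    split_ifs at hu <;> omega)

theorem Tr.flat {w : List P} {k : Fin 3} {r : P} (h : Tr w k (r k)) (c : ℤ) :
    Tr (H32.ins (flat i c) i w) k (Ph (H32.flat i c) i r k) := by
  by_cases hk : k = i
  · subst hk
    rw [Ph_flat]
    exact h.flat_same c
  · rw [Ph_ne hk]
    exact h.flat_ne hk c

theorem cnt_flat (w : List P) (c c' : ℤ) :
    cnt (ins (flat i c) i w) i c' ≤ cnt w i (if c' ≤ c then c' else c' - 1) := by
  unfold cnt
  refine le_trans (Finset.card_le_card (t := (w.toFinset.filter fun p =>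
    p i = if c' ≤ c then c' else c' - 1).image fun p => if c' ≤ c then p else p + ev i)
    fun x hx => ?_) Finset.card_image_le
  simp only [Finset.mem_filter, List.mem_toFinset, Finset.mem_image] at hx ⊢
  rcases mem_ins.1 hx.1 with ⟨p, hp, rfl⟩ | ⟨u, v, a, b, c1, d, rfl⟩
  · have h1 := hx.2
    rw [Ph_flat] at h1
    refine ⟨p, ⟨hp, by split_ifs at h1 ⊢ <;> omega⟩, ?_⟩
    by_cases h2 : c < p i
    · rw [Ph_mem (mem_flat.2 h2), if_neg (by rw [if_pos h2] at h1; omega)]
    · rw [Ph_not fun h => h2 (mem_flat.1 h), if_pos (by rw [if_neg h2] at h1; omega)]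
  · have h1 := hx.2
    have h2 := (lip_flat i c).lip
    have h3 := h2 u v c1 d b
    simp only [mem_flat, Pi.add_apply, ev_same] at h1 h3 c1
    exact ⟨u, ⟨a.left, by split_ifs <;> omega⟩, if_neg (by omega)⟩

theorem Conn.mono {w : List P} {a q : P} {m m' : ℕ} (h : Conn w a q m) (hm : m ≤ m') :
    Conn w a q m' := by
  induction h generalizing m' with
  | refl => exact .refl _
  | step _ h1 h2 h3 ih =>
    obtain ⟨k, rfl⟩ : ∃ k, m' = k + 1 := ⟨m' - 1, by omega⟩
    exact (ih (by omega)).step h1 h2 h3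

theorem Conn.sub {w w' : List P} {a q : P} {m : ℕ} (h : Conn w a q m) (hw : ∀ x ∈ w', x ∈ w) :
    Conn w' a q m := by
  induction h with
  | refl => exact .refl _
  | step _ h1 h2 h3 ih => exact ih.step h1 (fun h => h2 (hw _ h)) h3

theorem Conn.trans {w : List P} {a q x : P} {m m' : ℕ} (h : Conn w a q m) (h' : Conn w q x m') :
    Conn w a x (m + m') := by
  induction h' with
  | refl => exact h.mono (by omega)
  | step _ h1 h2 h3 ih => exact ih.step h1 h2 h3

theorem Conn.cases {w : List P} {a q : P} {m : ℕ} (h : Conn w a q m) :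
    q = a ∨ (q ∉ w ∧ 0 ≤ q 2) := by
  cases h with
  | refl => exact Or.inl rfl
  | step _ _ h2 h3 => exact Or.inr ⟨h2, h3⟩

theorem Conn.nonneg {w : List P} {a q : P} {m : ℕ} (h : Conn w a q m) (ha : 0 ≤ a 2) : 0 ≤ q 2 :=
  h.cases.elim (fun e => e ▸ ha) (·.2)

theorem Conn.dist {w : List P} {a q : P} {m : ℕ} (h : Conn w a q m) : d1 a q ≤ m := by
  induction h with
  | refl => simp
  | @step q x _ _ h1 _ _ ih =>
    have := d1_tri a q x
    have h2 : d1 q x = 1 := h1
    omega

theorem Conn.ins {w : List P} {a q : P} {m : ℕ} (h : Conn w a q m) (hl : Lip S i) (ha : 0 ≤ a 2)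
    (hs : ∀ v v', Adj a v → Adj a v' → a ∉ S → v ∈ S → v' ∈ S → v = v') :
    Conn (ins S i w) (Ph S i a) (Ph S i q) (2 * m) := by
  induction h with
  | refl => exact .refl _
  | @step q x m h0 h1 h2 h3 ih =>
    have f1 : Ph S i x ∉ H32.ins S i w := fun h => h2 ((Ph_mem_ins hl).1 h)
    have f2 : 0 ≤ Ph S i x 2 := h3.trans (Ph_coord x 2).1
    have f3 : ∀ z : P, 0 ≤ z 2 → 0 ≤ (z + ev i) 2 := fun z hz => by
      simp only [Pi.add_apply, ev_apply]
      split_ifs <;> omega
    by_cases hq : q ∈ S <;> by_cases hx : x ∈ S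
    · exact (ih.step (adj_Ph h1 (by tauto)) f1 f2).mono (by omega)
    · rw [Ph_mem hq] at ih
      refine (ih.step ((adj_add q x (ev i)).2 h1) (fun h => ?_) (f3 x h3)).step ?_ f1 f2
      · obtain ⟨v, b, -⟩ := (gap_mem_ins hl hx (hl.lip _ _ hx hq h1.symm)).1 h
        exact h2 b.left
      · rw [Ph_not hx]
        exact (adj_ev x i).symm
    · rw [Ph_not hq] at ih
      refine (ih.step (adj_ev q i) (fun h => ?_) (f3 q (h0.nonneg ha))).step ?_ f1 f2
      · obtain ⟨v, b, c, d⟩ := (gap_mem_ins hl hq (hl.lip _ _ hq hx h1)).1 h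
        rcases h0.cases with rfl | e
        · exact h2 (hs v x c h1 hq d hx ▸ b.right)
        · exact e.1 b.left
      · rw [Ph_mem hx]
        exact (adj_add q x (ev i)).2 h1
    · exact (ih.step (adj_Ph h1 (by tauto)) f1 f2).mono (by omega)

theorem Conn.flat {w : List P} {a q : P} {m : ℕ} (h : Conn w a q m) (ha : 0 ≤ a 2) (c : ℤ) :
    Conn (H32.ins (flat i c) i w) (Ph (flat i c) i a) (Ph (flat i c) i q) (2 * m) :=
  h.ins (lip_flat i c) ha fun v v' h1 h2 h3 h4 h5 =>
    once_flat i c [v, a, v'] a v v' (by simp [nb_cons]) (by simp [nb_cons]) h1 h2 h3 h4 h5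

/-- Moving along a free segment. -/
theorem conn_line {w : List P} (n : ℕ) {a b : P} (hab : On i a b) (hn : (b i - a i).natAbs ≤ n)
    (h : ∀ x, On i a x → (a i < x i ∧ x i ≤ b i ∨ b i ≤ x i ∧ x i < a i) → x ∉ w ∧ 0 ≤ x 2) :
    Conn w a b n := by
  induction n generalizing b with
  | zero =>
    rw [hab.eq (by omega)]
    exact .refl _
  | succ n ih =>
    rcases lt_trichotomy (a i) (b i) with h1 | h1 | h1
    · have h2 := h b hab (by omega)
      refine (ih (b := b - ev i) (hab.trans (on_sub i b)) (by simp; omega) fun x hx h3 =>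
        h x hx ?_).step (adj_ev' b i).symm h2.1 h2.2
      simp only [Pi.sub_apply, ev_same] at h3
      omega
    · rw [hab.eq h1.symm]
      exact .refl _
    · have h2 := h b hab (by omega)
      refine (ih (b := b + ev i) (hab.trans (on_add i b)) (by simp; omega) fun x hx h3 =>
        h x hx ?_).step (adj_ev b i).symm h2.1 h2.2
      simp only [Pi.add_apply, ev_same] at h3
      omega

/-- Reversing a connection that ends at a free site. -/
theorem Conn.rev {w : List P} {b r : P} {m : ℕ} (h : Conn w b r m) (hb : b ∈ w) (hr : r ∉ w) :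
    ∃ y, Adj y b ∧ Conn w r y m := by
  induction h with
  | refl => exact absurd hb hr
  | @step q x m h0 h1 _ _ ih =>
    rcases h0.cases with rfl | e
    · exact ⟨x, h1.symm, .refl _⟩
    · obtain ⟨y, h2, h3⟩ := ih e.1
      exact ⟨y, h2, (((Conn.refl 0).step h1.symm e.1 e.2).trans h3).mono (by omega)⟩

/-- A connection contains a self-avoiding path. -/
theorem Conn.path {w : List P} {a q : P} {m : ℕ} (h : Conn w a q m) :
    ∃ γ : List P, γ.Nodup ∧ (a :: γ).IsChain Adj ∧ lt (a :: γ) = q ∧ γ.length ≤ m ∧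
      ∀ x ∈ γ, x ∉ w ∧ 0 ≤ x 2 := by
  induction h with
  | refl => exact ⟨[], List.nodup_nil, List.isChain_singleton _, rfl, Nat.zero_le _, by simp⟩
  | @step q x m _ h1 h2 h3 ih =>
    obtain ⟨γ, g1, g2, g3, g4, g5⟩ := ih
    by_cases hx : x ∈ γ
    · obtain ⟨A, B, rfl⟩ := List.append_of_mem hx
      have e : a :: (A ++ x :: B) = (a :: (A ++ [x])) ++ B := by simp
      refine ⟨A ++ [x], g1.sublist (by simp), ?_, by rw [← List.cons_append, lt_concat],
        by simp at g4 ⊢; omega, fun y hy => g5 y ?_⟩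
      · rw [e] at g2
        exact g2.left_of_append
      · simp only [List.mem_append, List.mem_cons] at hy ⊢
        tauto
    · refine ⟨γ ++ [x], ?_, ?_, by rw [← List.cons_append, lt_concat], by simp; omega,
        fun y hy => ?_⟩
      · exact List.Nodup.append g1 (List.nodup_singleton _) (by simpa using hx)
      · rw [← List.cons_append, ← jn_eq_zero, jn, cs_append _ (by simp) (by simp), g3, hd_cons,
          jmp_adj h1]
        exact jn_eq_zero.2 g2
      · rcases List.mem_append.1 hy with hy | hy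
        · exact g5 y hy
        · rw [List.mem_singleton.1 hy]
          exact ⟨h2, h3⟩

/-- The data kept for the head of the list while the other end is treated. -/
def Prot (w : List P) (r : P) (m : ℕ) (J : Fin 3 → Prop) : Prop :=
  Conn w (hd w) r m ∧ ∀ k, J k → Tr w k (r k)

theorem Prot.flat {w : List P} {r : P} {m : ℕ} {J : Fin 3 → Prop} (h : Prot w r m J) (hg : Good w)
    (hw : w ≠ []) (c : ℤ) : Prot (H32.ins (flat i c) i w) (Ph (flat i c) i r) (2 * m) J :=
  ⟨hd_ins (S := H32.flat i c) (i := i) hw ▸ h.1.flat (hg.2 _ (hd_mem hw)) c,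
    fun k hk => (h.2 k hk).flat c⟩

end Pool.Agent.MP_7b45f6_mp.H32
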