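import Pool.Agent.MP_7b45f6_mp.H32.Sums

/-!
# Lists of sites with jumps, and the energy of a finite set of sites
-/

set_option autoImplicit false

namespace Pool.Agent.MP_7b45f6_mp.H32

open Classical

/-- The unit vector in direction `i`. -/
def ev (i : Fin 3) : P := Pi.single i 1

/-- The part of the distance in the directions of `I`. -/
def dI (I : Finset (Fin 3)) (p q : P) : ℕ := ∑ i ∈ I, (p i - q i).natAbs

/-- First entry. -/
def hd (w : List P) : P := w.headD 0

/-- Last entry. -/
def lt (w : List P) : P := w.getLastD 0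

/-- Sum of `f` over consecutive pairs. -/
def cs (f : P → P → ℕ) : List P → ℕ
  | p :: q :: l => f p q + cs f (q :: l)
  | _ => 0

/-- Total length of the steps and jumps. -/
def len (w : List P) : ℕ := cs d1 w

/-- One for a jump, zero for a step. -/
noncomputable def jmp (p q : P) : ℕ := if Adj p q then 0 else 1

/-- Number of jumps. -/
noncomputable def jn (w : List P) : ℕ := cs jmp w

/-- Length including the closing jump, measured in the directions of `I`. -/
def tot (I : Finset (Fin 3)) (w : List P) : ℕ := len w + dI I (lt w) (hd w)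

/-- Largest modulus of a coordinate. -/
def bx (w : List P) : ℕ := (w.map fun p => Finset.univ.sup fun i => (p i).natAbs).foldr max 0

/-- Distinct sites in the half-space. -/
def Good (w : List P) : Prop := w.Nodup ∧ ∀ p ∈ w, 0 ≤ p 2

/-- Number of sites in the layer `x i = c`. -/
noncomputable def cnt (w : List P) (i : Fin 3) (c : ℤ) : ℕ := (w.toFinset.filter fun p => p i = c).card

/-- Number of ordered pairs of adjacent sites. -/
noncomputable def A2 (V : Finset P) : ℕ := ((V ×ˢ V).filter fun x => Adj x.1 x.2).card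

/-- Parameters: surface weight, contact weight, and the subtracted growth rate. -/
structure Par : Type where
  a : ℝ
  b : ℝ
  l : ℝ

/-- The energy of a set of sites minus the growth rate times its size. -/
noncomputable def phi (θ : Par) (V : Finset P) : ℝ := θ.a * visits V + θ.b / 2 * A2 V - θ.l * V.card

/-- The largest effect of one site on `phi`. -/
noncomputable def kap (θ : Par) : ℝ := |θ.a| + 6 * |θ.b| + |θ.l|

/-- The energy with the excess length of the jumps charged. -/
noncomputable def pot (θ : Par) (I : Finset (Fin 3)) (w : List P) : ℝ :=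
  phi θ w.toFinset - kap θ * ((tot I w : ℝ) - w.length)

/-! ### Distances -/

theorem d1_eq (p q : P) : d1 p q = (p 0 - q 0).natAbs + (p 1 - q 1).natAbs + (p 2 - q 2).natAbs := by
  simp [d1, Fin.sum_univ_three]

theorem P.ext' {p q : P} (h0 : p 0 = q 0) (h1 : p 1 = q 1) (h2 : p 2 = q 2) : p = q := by
  funext i
  fin_cases i <;> assumption

theorem d1_comm (p q : P) : d1 p q = d1 q p := by
  rw [d1_eq, d1_eq]; omega

theorem d1_tri (p q r : P) : d1 p r ≤ d1 p q + d1 q r := by
  rw [d1_eq, d1_eq, d1_eq]; omega

@[simp] theorem d1_self (p : P) : d1 p p = 0 := by simp [d1]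

theorem d1_pos {p q : P} (h : p ≠ q) : 1 ≤ d1 p q := by
  by_contra h1
  rw [d1_eq] at h1
  exact h (P.ext' (by omega) (by omega) (by omega))

theorem d1_add (p q t : P) : d1 (p + t) (q + t) = d1 p q := by simp [d1]

theorem coord_le_d1 (p q : P) (i : Fin 3) : (p i - q i).natAbs ≤ d1 p q :=
  Finset.single_le_sum (f := fun i => (p i - q i).natAbs) (fun _ _ => Nat.zero_le _)
    (Finset.mem_univ i)

theorem dI_univ (p q : P) : dI Finset.univ p q = d1 p q := rfl

theorem dI_le (I : Finset (Fin 3)) (p q : P) : dI I p q ≤ d1 p q :=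
  Finset.sum_le_sum_of_subset (Finset.subset_univ I)

theorem dI_comm (I : Finset (Fin 3)) (p q : P) : dI I p q = dI I q p :=
  Finset.sum_congr rfl fun _ _ => by omega

theorem dI_tri (I : Finset (Fin 3)) (p q r : P) : dI I p r ≤ dI I p q + dI I q r := by
  rw [dI, dI, dI, ← Finset.sum_add_distrib]
  exact Finset.sum_le_sum fun _ _ => by omega

@[simp] theorem dI_self (I : Finset (Fin 3)) (p : P) : dI I p p = 0 := by simp [dI]

@[simp] theorem dI_empty (p q : P) : dI ∅ p q = 0 := rfl

theorem coord_le_dI {I : Finset (Fin 3)} {i : Fin 3} (h : i ∈ I) (p q : P) :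
    (p i - q i).natAbs ≤ dI I p q :=
  Finset.single_le_sum (f := fun i => (p i - q i).natAbs) (fun _ _ => Nat.zero_le _) h

@[simp] theorem ev_same (i : Fin 3) : ev i i = 1 := by simp [ev]

theorem ev_ne {i j : Fin 3} (h : j ≠ i) : ev i j = 0 := by simp [ev, h]

theorem ev_apply (i j : Fin 3) : ev i j = if j = i then 1 else 0 := by
  simp [ev, Pi.single_apply]

theorem Adj.symm {p q : P} (h : Adj p q) : Adj q p := by rwa [Adj, d1_comm]

theorem Adj.ne {p q : P} (h : Adj p q) : p ≠ q := by
  rintro rfl
  simp [Adj] at h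

theorem adj_add (p q t : P) : Adj (p + t) (q + t) ↔ Adj p q := by rw [Adj, d1_add, Adj]

theorem adj_ev (p : P) (i : Fin 3) : Adj p (p + ev i) := by
  rw [Adj, d1_eq]
  fin_cases i <;> simp [ev_apply]

theorem adj_ev' (p : P) (i : Fin 3) : Adj p (p - ev i) := by
  have := (adj_ev (p - ev i) i).symm
  rwa [sub_add_cancel] at this

theorem adj_iff {p q : P} : Adj p q ↔ ∃ i, q = p + ev i ∨ q = p - ev i := by
  refine ⟨fun h => ?_, by rintro ⟨i, rfl | rfl⟩; exacts [adj_ev p i, adj_ev' p i]⟩
  rw [Adj, d1_eq] at h
  by_cases h0 : p 0 = q 0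
  · by_cases h1 : p 1 = q 1
    · refine ⟨2, (show q 2 = p 2 + 1 ∨ q 2 = p 2 - 1 by omega).imp (fun h2 => ?_) fun h2 => ?_⟩ <;>
        apply P.ext' <;> simp [ev_apply] <;> omega
    · refine ⟨1, (show q 1 = p 1 + 1 ∨ q 1 = p 1 - 1 by omega).imp (fun h2 => ?_) fun h2 => ?_⟩ <;>
        apply P.ext' <;> simp [ev_apply] <;> omega
  · refine ⟨0, (show q 0 = p 0 + 1 ∨ q 0 = p 0 - 1 by omega).imp (fun h2 => ?_) fun h2 => ?_⟩ <;>
      apply P.ext' <;> simp [ev_apply] <;> omega

/-- Adjacent sites that differ in coordinate `i` differ by a unit vector in that direction. -/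
theorem Adj.of_ne {p q : P} (h : Adj p q) {i : Fin 3} (hi : p i ≠ q i) :
    q = p + ev i ∨ q = p - ev i := by
  obtain ⟨j, hj⟩ := adj_iff.1 h
  by_cases hij : i = j
  · rwa [hij]
  · rcases hj with rfl | rfl <;> simp [ev_ne hij] at hi

theorem fan_adj : Fan Adj 6 := by
  have h := (fan_dec Finset.univ fun (i : Fin 3) (p : P) => p + ev i).or
    (fan_dec Finset.univ fun (i : Fin 3) (p : P) => p - ev i)
  refine h.mono (fun p q hq => ?_) (by simp)
  obtain ⟨i, hi⟩ := adj_iff.1 hq
  exact hi.imp (fun h => ⟨i, Finset.mem_univ _, h⟩) fun h => ⟨i, Finset.mem_univ _, h⟩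

/-- The box of radius `b`. -/
noncomputable def box (b : ℕ) : Finset P := Fintype.piFinset fun _ => Finset.Icc (-(b : ℤ)) b

theorem mem_box {b : ℕ} {p : P} : p ∈ box b ↔ ∀ i, (p i).natAbs ≤ b := by
  simp only [box, Fintype.mem_piFinset, Finset.mem_Icc]
  exact forall_congr' fun i => by omega

theorem card_box (b : ℕ) : (box b).card = (2 * b + 1) ^ 3 := by
  simp only [box, Fintype.card_piFinset, Int.card_Icc, Finset.prod_const, Finset.card_univ,
    Fintype.card_fin]
  congr 1
  omega

theorem bx_le {w : List P} {b : ℕ} : bx w ≤ b ↔ ∀ p ∈ w, ∀ i, (p i).natAbs ≤ b := by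
  induction w with
  | nil => simp [bx]
  | cons p l ih =>
    have : bx (p :: l) = max (Finset.univ.sup fun i => (p i).natAbs) (bx l) := rfl
    rw [this, max_le_iff, ih, Finset.sup_le_iff]
    simp

theorem le_bx {w : List P} {p : P} (h : p ∈ w) (i : Fin 3) : (p i).natAbs ≤ bx w :=
  bx_le.1 le_rfl p h i

theorem bx_mono {w w' : List P} (h : ∀ p ∈ w, p ∈ w') : bx w ≤ bx w' :=
  bx_le.2 fun p hp i => le_bx (h p hp) i

/-! ### Lists -/

@[simp] theorem hd_nil : hd [] = 0 := rfl
@[simp] theorem lt_nil : lt [] = 0 := rfl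
@[simp] theorem hd_cons (p : P) (l : List P) : hd (p :: l) = p := rfl
@[simp] theorem lt_single (p : P) : lt [p] = p := rfl
@[simp] theorem lt_cons_cons (p q : P) (l : List P) : lt (p :: q :: l) = lt (q :: l) := by
  simp [lt]
@[simp] theorem lt_concat (l : List P) (p : P) : lt (l ++ [p]) = p := by simp [lt]

theorem hd_append {u : List P} (h : u ≠ []) (v : List P) : hd (u ++ v) = hd u := by
  cases u with
  | nil => exact absurd rfl h
  | cons p l => rfl

theorem lt_append (u : List P) {v : List P} (h : v ≠ []) : lt (u ++ v) = lt v := by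
  obtain ⟨l, p, rfl⟩ := (List.eq_nil_or_concat' v).resolve_left h
  rw [← List.append_assoc, lt_concat, lt_concat]

theorem hd_reverse (w : List P) : hd w.reverse = lt w := by
  rcases List.eq_nil_or_concat' w with rfl | ⟨l, p, rfl⟩ <;> simp

theorem lt_reverse (w : List P) : lt w.reverse = hd w := by
  rw [← hd_reverse, List.reverse_reverse]

theorem hd_mem {w : List P} (h : w ≠ []) : hd w ∈ w := by
  cases w with
  | nil => exact absurd rfl h
  | cons p l => simp

theorem lt_mem {w : List P} (h : w ≠ []) : lt w ∈ w := by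
  obtain ⟨l, p, rfl⟩ := (List.eq_nil_or_concat' w).resolve_left h
  simp

theorem hd_map (f : P → P) {w : List P} (h : w ≠ []) : hd (w.map f) = f (hd w) := by
  cases w with
  | nil => exact absurd rfl h
  | cons p l => rfl

theorem lt_map (f : P → P) {w : List P} (h : w ≠ []) : lt (w.map f) = f (lt w) := by
  obtain ⟨l, p, rfl⟩ := (List.eq_nil_or_concat' w).resolve_left h
  simp

@[simp] theorem cs_nil (f : P → P → ℕ) : cs f [] = 0 := rfl
@[simp] theorem cs_single (f : P → P → ℕ) (p : P) : cs f [p] = 0 := rfl
@[simp] theorem cs_cons_cons (f : P → P → ℕ) (p q : P) (l : List P) :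
    cs f (p :: q :: l) = f p q + cs f (q :: l) := rfl

theorem cs_append (f : P → P → ℕ) {u v : List P} (hu : u ≠ []) (hv : v ≠ []) :
    cs f (u ++ v) = cs f u + f (lt u) (hd v) + cs f v := by
  induction u with
  | nil => exact absurd rfl hu
  | cons p l ih =>
    cases l with
    | nil =>
      cases v with
      | nil => exact absurd rfl hv
      | cons q m => simp
    | cons q m =>
      have := ih (by simp)
      simp only [List.cons_append, cs_cons_cons, lt_cons_cons] at this ⊢
      omega

theorem cs_append_ge (f : P → P → ℕ) (u v : List P) : cs f u + cs f v ≤ cs f (u ++ v) := by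
  by_cases hu : u = []
  · simp [hu]
  by_cases hv : v = []
  · simp [hv]
  rw [cs_append f hu hv]
  omega

theorem cs_reverse {f : P → P → ℕ} (hf : ∀ p q, f p q = f q p) (w : List P) :
    cs f w.reverse = cs f w := by
  induction w with
  | nil => rfl
  | cons p l ih =>
    cases l with
    | nil => rfl
    | cons q m =>
      rw [List.reverse_cons, cs_append f (by simp) (by simp), ih, lt_reverse, cs_cons_cons, hf p q]
      simp [add_comm]

theorem cs_map {f : P → P → ℕ} {g : P → P} (h : ∀ p q, f (g p) (g q) = f p q) (w : List P) :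
    cs f (w.map g) = cs f w := by
  induction w with
  | nil => rfl
  | cons p l ih =>
    cases l with
    | nil => rfl
    | cons q m =>
      simp only [List.map_cons, cs_cons_cons, h] at ih ⊢
      rw [ih]

theorem jmp_comm (p q : P) : jmp p q = jmp q p := by
  have : Adj p q ↔ Adj q p := ⟨Adj.symm, Adj.symm⟩
  simp [jmp, this]

theorem jmp_le (p q : P) : jmp p q ≤ 1 := by
  unfold jmp
  split_ifs <;> omega

theorem jmp_adj {p q : P} (h : Adj p q) : jmp p q = 0 := if_pos h

theorem jmp_not {p q : P} (h : ¬ Adj p q) : jmp p q = 1 := if_neg h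

theorem len_reverse (w : List P) : len w.reverse = len w := cs_reverse d1_comm w

theorem jn_reverse (w : List P) : jn w.reverse = jn w := cs_reverse jmp_comm w

theorem tot_reverse (I : Finset (Fin 3)) (w : List P) : tot I w.reverse = tot I w := by
  rw [tot, tot, len_reverse, hd_reverse, lt_reverse, dI_comm]

theorem jn_eq_zero {w : List P} : jn w = 0 ↔ w.IsChain Adj := by
  induction w with
  | nil => simp [jn]
  | cons p l ih =>
    cases l with
    | nil => simp [jn]
    | cons q m =>
      rw [List.isChain_cons_cons, ← ih]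
      by_cases h : Adj p q <;> simp [jn, jmp, h]

theorem len_of_chain {w : List P} (h : w.IsChain Adj) : len w = w.length - 1 := by
  induction w with
  | nil => rfl
  | cons p l ih =>
    cases l with
    | nil => rfl
    | cons q m =>
      rw [List.isChain_cons_cons] at h
      have h1 := ih h.2
      have h2 : d1 p q = 1 := h.1
      simp only [len, cs_cons_cons, List.length_cons] at h1 ⊢
      omega

theorem length_le_len {w : List P} (h : w.Nodup) : w.length ≤ len w + 1 := by
  induction w with
  | nil => simp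
  | cons p l ih =>
    cases l with
    | nil => simp
    | cons q m =>
      rw [List.nodup_cons] at h
      have h1 := ih h.2
      have h2 : 1 ≤ d1 p q := d1_pos fun e => h.1 (by simp [e])
      simp only [len, cs_cons_cons, List.length_cons] at h1 ⊢
      omega

theorem d1_hd_le_len {w : List P} {p : P} (h : p ∈ w) : d1 (hd w) p ≤ len w := by
  induction w with
  | nil => simp at h
  | cons x l ih =>
    rcases List.mem_cons.1 h with rfl | h
    · simp
    · cases l with
      | nil => simp at h
      | cons q m =>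
        have h1 := ih h
        have h2 := d1_tri x q p
        simp only [len, cs_cons_cons, hd_cons] at h1 ⊢
        omega

/-- A list with a jump splits at a jump. -/
theorem exists_jump {w : List P} (h : jn w ≠ 0) :
    ∃ u v : List P, w = u ++ v ∧ u ≠ [] ∧ v ≠ [] ∧ ¬ Adj (lt u) (hd v) := by
  rw [Ne, jn_eq_zero, List.isChain_iff_forall_rel_of_append_cons_cons] at h
  push Not at h
  obtain ⟨a, b, l₁, l₂, rfl, h⟩ := h
  exact ⟨l₁ ++ [a], b :: l₂, by simp, by simp, by simp, by simpa using h⟩

theorem tot_rotate {u v : List P} (hu : u ≠ []) (hv : v ≠ []) :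
    tot Finset.univ (v ++ u) = tot Finset.univ (u ++ v) := by
  simp only [tot, len, cs_append _ hu hv, cs_append _ hv hu, hd_append hu, hd_append hv,
    lt_append _ hu, lt_append _ hv, dI_univ]
  omega

theorem Good.sub {w w' : List P} (h : Good w) (h' : w'.Sublist w) : Good w' :=
  ⟨h.1.sublist h', fun p hp => h.2 p (h'.subset hp)⟩

theorem Good.perm {w w' : List P} (h : Good w) (h' : w'.Perm w) : Good w' :=
  ⟨h'.nodup_iff.2 h.1, fun p hp => h.2 p (h'.subset hp)⟩

theorem Good.card {w : List P} (h : Good w) : w.toFinset.card = w.length :=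
  List.toFinset_card_of_nodup h.1

/-- Among `s` different layers one is sparse. -/
theorem exists_sparse (V : Finset P) (f : P → ℤ) (s g : ℕ) (hs : 0 < s) (h : V.card ≤ s * g)
    (c : ℤ) : ∃ k : ℕ, k < s ∧ (V.filter fun p => f p = c + k).card ≤ g := by
  by_contra h1
  push Not at h1
  have h2 : ∑ k ∈ Finset.range s, (V.filter fun p => f p = c + k).card ≤ V.card := by
    rw [← Finset.card_biUnion]
    · exact Finset.card_le_card (Finset.biUnion_subset.2 fun _ _ => Finset.filter_subset _ _)
    · intro a _ b _ hab
      refine Finset.disjoint_left.2 fun p ha hb => hab ?_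
      have h3 := (Finset.mem_filter.1 ha).2
      have h4 := (Finset.mem_filter.1 hb).2
      omega
  have h3 := Finset.card_nsmul_le_sum (Finset.range s) _ (g + 1)
    fun k hk => h1 k (Finset.mem_range.1 hk)
  rw [Finset.card_range, smul_eq_mul, mul_add] at h3
  omega

end Pool.Agent.MP_7b45f6_mp.H32
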