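import Mathlib

/-!
# Interacting self-avoiding walks and polygons in the half-space of the simple cubic lattice
-/

set_option autoImplicit false

namespace Pool.Agent.MP_7b45f6_mp.H32

open Classical

/-- Sites of the simple cubic lattice; coordinates 0, 1, 2 are x, y, z. -/
abbrev P : Type := Fin 3 → ℤ

/-- The lattice distance. -/
def d1 (p q : P) : ℕ := ∑ i, (p i - q i).natAbs

/-- Two sites at lattice distance one. -/
def Adj (p q : P) : Prop := d1 p q = 1

/-- The edges joining consecutive entries of a list of sites. -/
noncomputable def edges (w : List P) : Finset (Sym2 P) :=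
  (List.zipWith (fun p q => s(p, q)) w w.tail).toFinset

/-- Number of sites of `V` in the plane z = 0. -/
noncomputable def visits (V : Finset P) : ℕ := (V.filter fun p => p 2 = 0).card

/-- Number of unordered pairs of sites of `V` at distance one that are not an edge of `E`. -/
noncomputable def contacts (V : Finset P) (E : Finset (Sym2 P)) : ℕ :=
  (V.sym2.filter fun x => x ∉ E ∧ ∃ p q, x = s(p, q) ∧ Adj p q).card

/-- Self-avoiding walks with `n` edges that start at the origin and stay in z ≥ 0, as lists of
their `n + 1` vertices. -/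
def Walks (n : ℕ) : Set (List P) :=
  {w | w.length = n + 1 ∧ w.head? = some 0 ∧ w.Nodup ∧ w.IsChain Adj ∧ ∀ p ∈ w, 0 ≤ p 2}

/-- The partition function of walks. -/
noncomputable def Zw (n : ℕ) (α β : ℝ) : ℝ :=
  ∑ᶠ w ∈ Walks n, Real.exp (α * visits w.toFinset + β * contacts w.toFinset (edges w))

/-- The vertices of an edge set. -/
noncomputable def verts (E : Finset (Sym2 P)) : Finset P := E.biUnion Sym2.toFinset

/-- Polygons with `n` edges in z ≥ 0 with at least two surface vertices, as edge sets of embedded
cycles; one representative (least x and least y equal to 0) for each class under translations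
parallel to z = 0. -/
def Polys (n : ℕ) : Set (Finset (Sym2 P)) :=
  {E | (∃ w : List P, w.length = n ∧ 3 ≤ n ∧ w.Nodup ∧ (w ++ w.take 1).IsChain Adj ∧
      E = edges (w ++ w.take 1)) ∧
    (∀ p ∈ verts E, ∀ i, 0 ≤ p i) ∧ (∃ p ∈ verts E, p 0 = 0) ∧ (∃ p ∈ verts E, p 1 = 0) ∧
    2 ≤ visits (verts E)}

/-- The partition function of polygons. -/
noncomputable def Zp (n : ℕ) (α β : ℝ) : ℝ :=
  ∑ᶠ E ∈ Polys n, Real.exp (α * visits (verts E) + β * contacts (verts E) E)

end Pool.Agent.MP_7b45f6_mp.H32
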