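import Pool.Agent.MP_7b45f6_mp.H32.Spec

/-!
# Inserting a layer of new sites along the boundary of an upper set
-/

set_option autoImplicit false

namespace Pool.Agent.MP_7b45f6_mp.H32

open Classical

/-- The sites of `S` are shifted by one in direction `i`. -/
noncomputable def Ph (S : Set P) (i : Fin 3) (p : P) : P := if p ∈ S then p + ev i else p

/-- The new site on a step that crosses the boundary of `S`. -/
noncomputable def mid (S : Set P) (i : Fin 3) (p q : P) : List P :=
  if Adj p q ∧ p ∉ S ∧ q ∈ S then [p + ev i] else if Adj p q ∧ p ∈ S ∧ q ∉ S then [q + ev i] else []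

/-- The list after the insertion. -/
noncomputable def ins (S : Set P) (i : Fin 3) : List P → List P
  | [] => []
  | [p] => [Ph S i p]
  | p :: q :: l => Ph S i p :: (mid S i p q ++ ins S i (q :: l))

/-- `S` is an upper set with a Lipschitz boundary. -/
structure Lip (S : Set P) (i : Fin 3) : Prop where
  up : ∀ p ∈ S, p + ev i ∈ S
  lip : ∀ p q, p ∉ S → q ∈ S → Adj p q → p + ev i ∈ S

/-- Neighbours in a list. -/
def Nb (w : List P) (u v : P) : Prop := [u, v] <:+: w ∨ [v, u] <:+: w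

/-- No new site is used twice. -/
def Once (S : Set P) (w : List P) : Prop :=
  ∀ x p q, Nb w x p → Nb w x q → Adj x p → Adj x q → x ∉ S → p ∈ S → q ∈ S → p = q

theorem Nb.symm {w : List P} {u v : P} (h : Nb w u v) : Nb w v u := Or.symm h

theorem Nb.left {w : List P} {u v : P} (h : Nb w u v) : u ∈ w := by
  rcases h with h | h <;> exact h.subset (by simp)

theorem Nb.right {w : List P} {u v : P} (h : Nb w u v) : v ∈ w := h.symm.left

theorem Nb.ofIn {w w' : List P} {u v : P} (h : Nb w u v) (h' : w <:+: w') : Nb w' u v :=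
  h.imp (·.trans h') (·.trans h')

theorem Nb.reverse {w : List P} {u v : P} (h : Nb w.reverse u v) : Nb w u v := by
  rcases h with h | h
  · exact Or.inr (by simpa using List.reverse_infix.2 h)
  · exact Or.inl (by simpa using List.reverse_infix.2 h)

theorem pair_infix {u v p q : P} {l : List P} :
    [u, v] <:+: p :: q :: l ↔ (u = p ∧ v = q) ∨ [u, v] <:+: q :: l := by
  rw [List.infix_cons_iff]
  simp [List.cons_prefix_cons]

theorem nb_cons {u v p q : P} {l : List P} :
    Nb (p :: q :: l) u v ↔ (u = p ∧ v = q) ∨ (v = p ∧ u = q) ∨ Nb (q :: l) u v := by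
  simp only [Nb, pair_infix]
  tauto

theorem not_nb_single (p u v : P) : ¬ Nb [p] u v := by
  rintro (h | h) <;> have := h.length_le <;> simp at this

theorem not_nb_nil (u v : P) : ¬ Nb [] u v := fun h => by simpa using h.left

/-- Every entry of a list of length at least two has a neighbour. -/
theorem exists_nb {w : List P} (hw : 2 ≤ w.length) {x : P} (hx : x ∈ w) : ∃ y, Nb w x y := by
  induction w with
  | nil => simp at hx
  | cons p l ih =>
    cases l with
    | nil => simp at hw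
    | cons q m =>
      rcases List.mem_cons.1 hx with rfl | hx
      · exact ⟨q, nb_cons.2 (Or.inl ⟨rfl, rfl⟩)⟩
      rcases List.mem_cons.1 hx with rfl | hx'
      · exact ⟨p, nb_cons.2 (Or.inr (Or.inl ⟨rfl, rfl⟩))⟩
      · obtain ⟨y, hy⟩ := ih (by
          have := List.length_pos_of_mem hx'
          simp only [List.length_cons]
          omega) hx
        exact ⟨y, nb_cons.2 (Or.inr (Or.inr hy))⟩

variable {S : Set P} {i : Fin 3}

theorem Ph_mem {p : P} (h : p ∈ S) : Ph S i p = p + ev i := if_pos h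

theorem Ph_not {p : P} (h : p ∉ S) : Ph S i p = p := if_neg h

theorem Ph_ne {k : Fin 3} (h : k ≠ i) (p : P) : Ph S i p k = p k := by
  unfold Ph
  split_ifs <;> simp [ev_ne h]

theorem Ph_coord (p : P) (k : Fin 3) : p k ≤ Ph S i p k ∧ Ph S i p k ≤ p k + 1 := by
  unfold Ph
  split_ifs
  · simp only [Pi.add_apply, ev_apply]
    split_ifs <;> omega
  · omega

theorem d1_Ph (p q : P) : d1 (Ph S i p) (Ph S i q) ≤ d1 p q + 1 := by
  have h : ∀ x, d1 x (x + ev i) = 1 := fun x => adj_ev x i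
  unfold Ph
  split_ifs
  · rw [d1_add]; omega
  · have := d1_tri (p + ev i) p q
    rw [d1_comm _ p, h] at this
    omega
  · have := d1_tri p q (q + ev i)
    rw [h] at this
    omega
  · omega

theorem adj_Ph {p q : P} (h : Adj p q) (hs : p ∈ S ↔ q ∈ S) : Adj (Ph S i p) (Ph S i q) := by
  by_cases hp : p ∈ S
  · rw [Ph_mem hp, Ph_mem (hs.1 hp), adj_add]; exact h
  · rw [Ph_not hp, Ph_not fun hq => hp (hs.2 hq)]; exact h

theorem mid_cases (p q : P) :
    (mid S i p q = [] ∧ (Adj p q → (p ∈ S ↔ q ∈ S))) ∨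
      (Adj p q ∧ p ∉ S ∧ q ∈ S ∧ mid S i p q = [p + ev i]) ∨
      (Adj p q ∧ p ∈ S ∧ q ∉ S ∧ mid S i p q = [q + ev i]) := by
  unfold mid
  split_ifs with h1 h2
  · exact Or.inr (Or.inl ⟨h1.1, h1.2.1, h1.2.2, rfl⟩)
  · exact Or.inr (Or.inr ⟨h2.1, h2.2.1, h2.2.2, rfl⟩)
  · exact Or.inl ⟨rfl, fun h => by tauto⟩

theorem ins_cons (q : P) (l : List P) : ∃ t, ins S i (q :: l) = Ph S i q :: t := by
  cases l with
  | nil => exact ⟨_, rfl⟩
  | cons x m => exact ⟨_, rfl⟩

theorem ins_cons_cons (p q : P) (l : List P) :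
    ins S i (p :: q :: l) = Ph S i p :: (mid S i p q ++ ins S i (q :: l)) := rfl

theorem ins_ne_nil {w : List P} (h : w ≠ []) : ins S i w ≠ [] := by
  cases w with
  | nil => exact absurd rfl h
  | cons p l =>
    obtain ⟨t, ht⟩ := ins_cons (S := S) (i := i) p l
    simp [ht]

theorem hd_ins {w : List P} (h : w ≠ []) : hd (ins S i w) = Ph S i (hd w) := by
  cases w with
  | nil => exact absurd rfl h
  | cons p l =>
    obtain ⟨t, ht⟩ := ins_cons (S := S) (i := i) p l
    simp [ht]

theorem lt_ins {w : List P} (h : w ≠ []) : lt (ins S i w) = Ph S i (lt w) := by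
  induction w with
  | nil => exact absurd rfl h
  | cons p l ih =>
    cases l with
    | nil => rfl
    | cons q m =>
      rw [ins_cons_cons, ← List.cons_append, lt_append _ (ins_ne_nil (by simp)), ih (by simp),
        lt_cons_cons]

theorem mem_ins {w : List P} {x : P} : x ∈ ins S i w ↔ (∃ p ∈ w, x = Ph S i p) ∨
    ∃ u v, Nb w u v ∧ Adj u v ∧ u ∉ S ∧ v ∈ S ∧ x = u + ev i := by
  induction w with
  | nil => simp [ins, not_nb_nil]
  | cons p l ih =>
    cases l with
    | nil => simp [ins, not_nb_single]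
    | cons q m =>
      rw [ins_cons_cons, List.mem_cons, List.mem_append, ih]
      constructor
      · rintro (h | h | ⟨y, hy, h⟩ | ⟨u, v, h1, h⟩)
        · exact Or.inl ⟨p, by simp, h⟩
        · rcases mid_cases (S := S) (i := i) p q with h1 | h1 | h1
          · simp [h1.1] at h
          · rw [h1.2.2.2, List.mem_singleton] at h
            exact Or.inr ⟨p, q, nb_cons.2 (Or.inl ⟨rfl, rfl⟩), h1.1, h1.2.1, h1.2.2.1, h⟩
          · rw [h1.2.2.2, List.mem_singleton] at h
            exact Or.inr ⟨q, p, nb_cons.2 (Or.inr (Or.inl ⟨rfl, rfl⟩)), h1.1.symm, h1.2.2.1,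
              h1.2.1, h⟩
        · exact Or.inl ⟨y, List.mem_cons_of_mem _ hy, h⟩
        · exact Or.inr ⟨u, v, nb_cons.2 (Or.inr (Or.inr h1)), h⟩
      · rintro (⟨y, hy, h⟩ | ⟨u, v, h1, h2, h3, h4, h5⟩)
        · rcases List.mem_cons.1 hy with rfl | hy
          · exact Or.inl h
          · exact Or.inr (Or.inr (Or.inl ⟨y, hy, h⟩))
        · rcases nb_cons.1 h1 with ⟨rfl, rfl⟩ | ⟨rfl, rfl⟩ | h1
          · exact Or.inr (Or.inl (by simp [mid, h2, h3, h4, h5]))
          · exact Or.inr (Or.inl (by simp [mid, h2.symm, h3, h4, h5]))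
          · exact Or.inr (Or.inr (Or.inr ⟨u, v, h1, h2, h3, h4, h5⟩))

theorem nb_ins {w : List P} {x y : P} (h : Nb (ins S i w) x y) : ∃ u v, Nb w u v ∧
    ((x = Ph S i u ∧ y = Ph S i v ∧ (Adj u v → (u ∈ S ↔ v ∈ S))) ∨
      (Adj u v ∧ u ∉ S ∧ v ∈ S ∧ ((x = u ∧ y = u + ev i) ∨ (x = u + ev i ∧ y = u) ∨
        (x = u + ev i ∧ y = v + ev i) ∨ (x = v + ev i ∧ y = u + ev i)))) := by
  induction w with
  | nil => exact absurd h (not_nb_nil _ _)
  | cons p l ih =>
    cases l with
    | nil => exact absurd h (not_nb_single _ _ _)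
    | cons q m =>
      have key : Nb (ins S i (q :: m)) x y → ∃ u v, Nb (p :: q :: m) u v ∧
          ((x = Ph S i u ∧ y = Ph S i v ∧ (Adj u v → (u ∈ S ↔ v ∈ S))) ∨
            (Adj u v ∧ u ∉ S ∧ v ∈ S ∧ ((x = u ∧ y = u + ev i) ∨ (x = u + ev i ∧ y = u) ∨
              (x = u + ev i ∧ y = v + ev i) ∨ (x = v + ev i ∧ y = u + ev i)))) := fun h => by
        obtain ⟨u, v, h1, h2⟩ := ih h
        exact ⟨u, v, nb_cons.2 (Or.inr (Or.inr h1)), h2⟩
      have n1 : Nb (p :: q :: m) p q := nb_cons.2 (Or.inl ⟨rfl, rfl⟩)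
      obtain ⟨t, ht⟩ := ins_cons (S := S) (i := i) q m
      rw [ins_cons_cons] at h
      rw [ht] at h key
      rcases mid_cases (S := S) (i := i) p q with h1 | h1 | h1
      · rw [h1.1, List.nil_append, nb_cons] at h
        rcases h with h | h | h
        · exact ⟨p, q, n1, Or.inl ⟨h.1, h.2, h1.2⟩⟩
        · exact ⟨q, p, n1.symm, Or.inl ⟨h.2, h.1, fun a => (h1.2 a.symm).symm⟩⟩
        · exact key h
      · rw [h1.2.2.2, List.singleton_append, nb_cons, nb_cons, Ph_not h1.2.1,
          Ph_mem h1.2.2.1] at h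
        rw [Ph_mem h1.2.2.1] at key
        rcases h with h | h | h | h | h
        exacts [⟨p, q, n1, Or.inr ⟨h1.1, h1.2.1, h1.2.2.1, Or.inl h⟩⟩,
          ⟨p, q, n1, Or.inr ⟨h1.1, h1.2.1, h1.2.2.1, Or.inr (Or.inl h.symm)⟩⟩,
          ⟨p, q, n1, Or.inr ⟨h1.1, h1.2.1, h1.2.2.1, Or.inr (Or.inr (Or.inl h))⟩⟩,
          ⟨p, q, n1, Or.inr ⟨h1.1, h1.2.1, h1.2.2.1, Or.inr (Or.inr (Or.inr h.symm))⟩⟩, key h]
      · rw [h1.2.2.2, List.singleton_append, nb_cons, nb_cons, Ph_mem h1.2.1,
          Ph_not h1.2.2.1] at h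
        rw [Ph_not h1.2.2.1] at key
        rcases h with h | h | h | h | h
        exacts [⟨q, p, n1.symm, Or.inr ⟨h1.1.symm, h1.2.2.1, h1.2.1, Or.inr (Or.inr (Or.inr h))⟩⟩,
          ⟨q, p, n1.symm, Or.inr ⟨h1.1.symm, h1.2.2.1, h1.2.1, Or.inr (Or.inr (Or.inl h.symm))⟩⟩,
          ⟨q, p, n1.symm, Or.inr ⟨h1.1.symm, h1.2.2.1, h1.2.1, Or.inr (Or.inl h)⟩⟩,
          ⟨q, p, n1.symm, Or.inr ⟨h1.1.symm, h1.2.2.1, h1.2.1, Or.inl h.symm⟩⟩, key h]

/-- The inverse of `Ph`, undefined on the new sites. -/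
noncomputable def Ps (S : Set P) (i : Fin 3) (x : P) : Option P :=
  if x ∉ S then some x else if x - ev i ∈ S then some (x - ev i) else none

theorem Ps_Ph (h : Lip S i) (p : P) : Ps S i (Ph S i p) = some p := by
  by_cases hp : p ∈ S
  · simp [Ps, Ph_mem hp, h.up p hp, hp]
  · simp [Ps, Ph_not hp, hp]

theorem Ps_gap {u : P} (h1 : u ∉ S) (h2 : u + ev i ∈ S) : Ps S i (u + ev i) = none := by
  simp [Ps, h1, h2]

theorem Ph_inj (h : Lip S i) {p q : P} (e : Ph S i p = Ph S i q) : p = q := by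
  have := Ps_Ph h p
  rw [e, Ps_Ph h] at this
  exact (Option.some.inj this).symm

theorem gap_ne (h : Lip S i) {u : P} (h1 : u ∉ S) (h2 : u + ev i ∈ S) (p : P) :
    u + ev i ≠ Ph S i p := fun e => by
  have := Ps_gap h1 h2
  rw [e, Ps_Ph h] at this
  simp at this

theorem dec_ins (h : Lip S i) (w : List P) : (ins S i w).filterMap (Ps S i) = w := by
  induction w with
  | nil => rfl
  | cons p l ih =>
    cases l with
    | nil => simp [ins, Ps_Ph h]
    | cons q m =>
      rw [ins_cons_cons, List.filterMap_cons_some (Ps_Ph h p), List.filterMap_append, ih]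
      rcases mid_cases (S := S) (i := i) p q with h1 | h1 | h1
      · simp [h1.1]
      · simp [h1.2.2.2, Ps_gap h1.2.1 (h.lip _ _ h1.2.1 h1.2.2.1 h1.1)]
      · simp [h1.2.2.2, Ps_gap h1.2.2.1 (h.lip _ _ h1.2.2.1 h1.2.1 h1.1.symm)]

theorem Ph_mem_ins (h : Lip S i) {w : List P} {p : P} : Ph S i p ∈ ins S i w ↔ p ∈ w := by
  rw [mem_ins]
  refine ⟨?_, fun hp => Or.inl ⟨p, hp, rfl⟩⟩
  rintro (⟨q, hq, e⟩ | ⟨u, v, -, h2, h3, h4, e⟩)
  · rwa [Ph_inj h e]
  · exact absurd e.symm (gap_ne h h3 (h.lip _ _ h3 h4 h2) p)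

theorem gap_mem_ins (h : Lip S i) {w : List P} {u : P} (h1 : u ∉ S) (h2 : u + ev i ∈ S) :
    u + ev i ∈ ins S i w ↔ ∃ v, Nb w u v ∧ Adj u v ∧ v ∈ S := by
  rw [mem_ins]
  refine ⟨?_, fun ⟨v, a, b, c⟩ => Or.inr ⟨u, v, a, b, h1, c, rfl⟩⟩
  rintro (⟨q, -, e⟩ | ⟨u', v, a, b, -, c, e⟩)
  · exact absurd e (gap_ne h h1 h2 q)
  · obtain rfl := add_right_cancel e
    exact ⟨v, a, b, c⟩

theorem nodup_ins (h : Lip S i) {w : List P} (hw : w.Nodup) (ho : Once S w) :
    (ins S i w).Nodup := by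
  induction w with
  | nil => exact List.nodup_nil
  | cons p l ih =>
    cases l with
    | nil => exact List.nodup_singleton _
    | cons q m =>
      rw [List.nodup_cons] at hw
      have n1 : Nb (p :: q :: m) p q := nb_cons.2 (Or.inl ⟨rfl, rfl⟩)
      have h0 := ih hw.2 fun x a b h1 h2 =>
        ho x a b (nb_cons.2 (Or.inr (Or.inr h1))) (nb_cons.2 (Or.inr (Or.inr h2)))
      have h2 : Ph S i p ∉ ins S i (q :: m) := fun e => hw.1 ((Ph_mem_ins h).1 e)
      rw [ins_cons_cons]
      rcases mid_cases (S := S) (i := i) p q with h1 | h1 | h1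
      · rw [h1.1, List.nil_append]
        exact List.nodup_cons.2 ⟨h2, h0⟩
      · have g := h.lip _ _ h1.2.1 h1.2.2.1 h1.1
        rw [h1.2.2.2, List.singleton_append, List.nodup_cons, List.nodup_cons, List.mem_cons]
        refine ⟨fun e => e.elim (fun e => gap_ne h h1.2.1 g p e.symm) h2, fun e => ?_, h0⟩
        obtain ⟨v, a, -⟩ := (gap_mem_ins h h1.2.1 g).1 e
        exact hw.1 a.left
      · have g := h.lip _ _ h1.2.2.1 h1.2.1 h1.1.symm
        rw [h1.2.2.2, List.singleton_append, List.nodup_cons, List.nodup_cons, List.mem_cons]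
        refine ⟨fun e => e.elim (fun e => gap_ne h h1.2.2.1 g p e.symm) h2, fun e => ?_, h0⟩
        obtain ⟨v, a, b, c⟩ := (gap_mem_ins h h1.2.2.1 g).1 e
        have := ho q p v n1.symm (nb_cons.2 (Or.inr (Or.inr a))) h1.1.symm b h1.2.2.1 h1.2.1 c
        exact hw.1 (this ▸ a.right)

theorem jn_len_ins (w : List P) : jn (ins S i w) ≤ jn w ∧
    len (ins S i w) + w.length ≤ len w + (ins S i w).length + jn w ∧
    w.length ≤ (ins S i w).length := by
  induction w with
  | nil => simp [ins]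
  | cons p l ih =>
    cases l with
    | nil => simp [ins, jn, len]
    | cons q m =>
      obtain ⟨t, ht⟩ := ins_cons (S := S) (i := i) q m
      rw [ins_cons_cons]
      rw [ht] at ih ⊢
      have e : ∀ x y, Adj x y → d1 x y = 1 ∧ jmp x y = 0 := fun x y h => ⟨h, jmp_adj h⟩
      rcases mid_cases (S := S) (i := i) p q with h1 | h1 | h1
      · rw [h1.1, List.nil_append]
        simp only [jn, len, cs_cons_cons, List.length_cons] at ih ⊢
        by_cases ha : Adj p q
        · have := e _ _ ha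
          have := e _ _ (adj_Ph (i := i) ha (h1.2 ha))
          omega
        · have := jmp_not ha
          have := jmp_le (Ph S i p) (Ph S i q)
          have := d1_Ph (S := S) (i := i) p q
          omega
      · rw [h1.2.2.2, List.singleton_append, Ph_not h1.2.1]
        rw [Ph_mem h1.2.2.1] at ih ⊢
        simp only [jn, len, cs_cons_cons, List.length_cons] at ih ⊢
        have := e _ _ h1.1
        have := e _ _ (adj_ev p i)
        have := e _ _ ((adj_add p q (ev i)).2 h1.1)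
        omega
      · rw [h1.2.2.2, List.singleton_append, Ph_mem h1.2.1]
        rw [Ph_not h1.2.2.1] at ih ⊢
        simp only [jn, len, cs_cons_cons, List.length_cons] at ih ⊢
        have := e _ _ h1.1
        have := e _ _ (adj_ev q i).symm
        have := e _ _ ((adj_add p q (ev i)).2 h1.1)
        omega

/-- The sites just below the boundary. -/
noncomputable def bd (S : Set P) (i : Fin 3) (w : List P) : Finset P :=
  w.toFinset.filter fun p => p ∉ S ∧ p + ev i ∈ S

theorem ins_subset (h : Lip S i) (w : List P) : (ins S i w).toFinset ⊆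
    w.toFinset.image (Ph S i) ∪ (bd S i w).image (· + ev i) := fun x hx => by
  simp only [Finset.mem_union, Finset.mem_image, List.mem_toFinset, bd, Finset.mem_filter] at hx ⊢
  rcases mem_ins.1 hx with ⟨p, hp, e⟩ | ⟨u, v, a, b, c, d, e⟩
  · exact Or.inl ⟨p, hp, e.symm⟩
  · exact Or.inr ⟨u, ⟨a.left, c, h.lip _ _ c d b⟩, e.symm⟩

theorem card_ins (h : Lip S i) (w : List P) :
    (ins S i w).toFinset.card ≤ (w.toFinset.image (Ph S i)).card + (bd S i w).card :=
  (Finset.card_le_card (ins_subset h w)).trans ((Finset.card_union_le _ _).trans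
    (Nat.add_le_add_left Finset.card_image_le _))

theorem phi_ins (θ : Par) (h : Lip S i) (hz : i = 2 → ∀ p ∈ S, 1 ≤ p 2) (w : List P) :
    phi θ w.toFinset ≤ phi θ (ins S i w).toFinset + 3 * kap θ * (bd S i w).card := by
  have h1 := phi_image_near θ (V := w.toFinset) (bd S i w) (f := Ph S i)
    (fun p _ q _ e => Ph_inj h e) (fun p _ => ?_) fun p hp q hq h1 h2 => ?_
  · have h2 := phi_near θ (V := w.toFinset.image (Ph S i)) (W := (ins S i w).toFinset)
      (fun x hx => by
        obtain ⟨p, hp, rfl⟩ := Finset.mem_image.1 hx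
        exact List.mem_toFinset.2 ((Ph_mem_ins h).2 (List.mem_toFinset.1 hp))) (card_ins h w)
    rw [abs_le] at h1 h2
    linarith [h1.1, h2.1]
  · by_cases hi : i = 2
    · by_cases hp : p ∈ S
      · have := hz hi p hp
        have := (Ph_coord (S := S) (i := i) p 2).1
        omega
      · rw [Ph_not hp]
    · rw [Ph_ne (Ne.symm hi)]
  · simp only [bd, Finset.mem_filter, not_and] at h1 h2
    by_cases a : p ∈ S <;> by_cases b : q ∈ S
    · rw [Ph_mem a, Ph_mem b, adj_add]
    · rw [Ph_mem a, Ph_not b]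
      exact ⟨fun c => absurd (h.lip _ _ b (h.up _ a) c.symm) (h2 hq b),
        fun c => absurd (h.lip _ _ b a c.symm) (h2 hq b)⟩
    · rw [Ph_not a, Ph_mem b]
      exact ⟨fun c => absurd (h.lip _ _ a (h.up _ b) c) (h1 hp a),
        fun c => absurd (h.lip _ _ a b c) (h1 hp a)⟩
    · rw [Ph_not a, Ph_not b]

theorem near_ins {w : List P} {x : P} (hx : x ∈ ins S i w) :
    ∃ p ∈ w, ∀ k, p k ≤ x k ∧ x k ≤ p k + 1 := by
  rcases mem_ins.1 hx with ⟨p, hp, rfl⟩ | ⟨u, v, a, -, -, -, rfl⟩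
  · exact ⟨p, hp, Ph_coord p⟩
  · refine ⟨u, a.left, fun k => ?_⟩
    simp only [Pi.add_apply, ev_apply]
    split_ifs <;> omega

theorem good_ins (h : Lip S i) {w : List P} (hw : Good w) (ho : Once S w) : Good (ins S i w) :=
  ⟨nodup_ins h hw.1 ho, fun x hx => by
    obtain ⟨p, hp, h1⟩ := near_ins hx
    exact (hw.2 p hp).trans (h1 2).1⟩

theorem bx_ins (w : List P) : bx (ins S i w) ≤ bx w + 1 :=
  bx_le.2 fun x hx k => by
    obtain ⟨p, hp, h1⟩ := near_ins hx
    have := h1 k
    have := le_bx hp k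
    omega

theorem length_ins (h : Lip S i) {w : List P} (hw : Good w) (ho : Once S w) :
    (ins S i w).length ≤ w.length + (bd S i w).card := by
  rw [← (good_ins h hw ho).card, ← hw.card]
  exact (card_ins h w).trans (Nat.add_le_add_right Finset.card_image_le _)

end Pool.Agent.MP_7b45f6_mp.H32
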