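import Pool.Agent.MP_7b45f6_mp.H32.Vent

/-!
# The surgery that replaces the closing jump by a path
-/

set_option autoImplicit false

namespace Pool.Agent.MP_7b45f6_mp.H32

open Classical

theorem exists_dirs (d : Fin 3) : ∃ e f : Fin 3, e ≠ d ∧ e ≠ 2 ∧ f ≠ d ∧ f ≠ e ∧
    ∀ k, k = d ∨ k = e ∨ k = f := by
  revert d
  decide

theorem Mv.length_le {n η M : ℕ} {w w' : List P} (h : Mv n η w w')
    (hM : sz Finset.univ w + η + 1 ≤ M) : w'.length ≤ M := by
  have h1 := length_le_len h.good.1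
  have h2 := h.sz_le
  unfold sz tot at *
  omega

theorem vent (s s' m : ℕ) (hs : 0 < s) : ∃ c : ℕ, ∀ (j g g' η : ℕ) (w : List P) (r : P)
    (J : Fin 3 → Prop), Good w → jn w ≤ j → c ≤ w.length →
    η = c * (j + 1) + 9 * g + 18 * (s * g') → sz Finset.univ w + η + 1 ≤ s * g →
    sz Finset.univ w + η + 1 ≤ s' * g' → Prot w r m J →
    ∃ (w' : List P) (r' q : P) (e : Fin 3), Mv c η w w' ∧
      Prot w' r' c (fun k => J k ∧ k ≠ e) ∧ Conn w' (lt w') q c ∧ ∀ k, Tr w' k (q k) := by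
  obtain ⟨c1, hc1⟩ : ∃ c1, c1 = 2 ^ (2 * s + 1) * m := ⟨_, rfl⟩
  obtain ⟨c2, hc2⟩ : ∃ c2, c2 = (2 * s + 1) * (2 * s + 4) := ⟨_, rfl⟩
  refine ⟨2 * s' ^ 3 + c2 + 8 * c1 + 20 * s + 30, ?_⟩
  intro j g g' η w r J hg hj hc hη hM hM' hP
  have hη' : 2 * s' ^ 3 + c2 + 8 * c1 + 20 * s + 30 + 2 * (s * j) + 4 * j + 9 * g + 12 * (s * g') +
      6 * g' ≤ η := by
    have h1 : g' ≤ s * g' := Nat.le_mul_of_pos_left _ hs
    have h2 : (2 * s + 4) * j ≤ (2 * s' ^ 3 + c2 + 8 * c1 + 20 * s + 30) * j :=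
      Nat.mul_le_mul_right _ (by omega)
    have h3 : (2 * s + 4) * j = 2 * (s * j) + 4 * j := by ring
    rw [hη, mul_add, mul_one]
    omega
  clear hη
  obtain ⟨l, t, p, d, rfl, a1, a2, a3, a4, a5, a6, a7⟩ := pick hg (s := s') (g := g') (by omega)
    ((Mv.refl hg).length_le (by omega))
  have m0 := (mv_trim hg a1).mono a2 (Nat.mul_le_mul_left 2 a2)
  have P0 : Prot l r m J := ⟨hd_append a1 t ▸ hP.1.sub fun x hx => by simp [hx],
    fun k hk => (hP.2 k hk).ofIn (List.prefix_append l t).isInfix⟩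
  obtain ⟨w1, r1, m1, n1, P1, b4, b5, -, b7, b8, b9, b10, b11⟩ :=
    slab m0.good a1 (m0.jn_le.trans hj) a3 a4 a5 a6 a7 P0 (2 * s + 1)
  have e1 : (2 * s + 1) * (3 * g' + j + (2 * s + 1) + 3) =
      6 * (s * g') + 3 * g' + 2 * (s * j) + j + c2 := by rw [hc2]; ring
  rw [e1] at m1
  rw [← hc1] at P1
  have t1 := m0.trans m1
  obtain ⟨e, f, d1, d2, d3, d4, d5⟩ := exists_dirs d
  obtain ⟨w2, r2, q2, m2, n2, P2, c2', r3, r4⟩ := stair_step (g := g) hs d1 d2 t1.good n1
    (t1.jn_le.trans hj) (t1.length_le (by omega)) a3 P1 b4 b5 b7 b8 b9 b10 b11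
  have e2 : 3 * (g + (2 * s + 1) * g') = 3 * g + 6 * (s * g') + 3 * g' := by ring
  rw [e2] at m2
  have t2 := t1.trans m2
  clear b4 b5 b7 b8 b9 b10 b11 a6 m0 m1 m2 t1 e1 e2
  obtain ⟨w3, r3', q3, m3, n3, P3, c3, o3, u3, v3⟩ := wall (i := f) (g := g) hs t2.good n2
    (t2.jn_le.trans hj) (t2.length_le (by omega)) P2 c2'
    fun x hx => r4 x (hx d d3.symm) (hx e d4.symm)
  have t3 := t2.trans m3
  have u4 : Tr w3 d (q3 d) := o3 d d3.symm ▸ v3 d _ d3.symm r3
  have l3 : 2 ≤ w3.length := by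
    have := t3.len_le
    omega
  obtain ⟨w4, r4', q4, m4, -, P4, c4, o4, u5, v4⟩ := wall (i := e) (g := g) hs t3.good n3
    (t3.jn_le.trans hj) (t3.length_le (by omega)) P3 c3 fun x hx =>
      Tr.free l3 d3.symm (by rw [hx d d1.symm]; exact u4) (by rw [hx f d4]; exact u3)
  refine ⟨w4, r4', q4, e, (t3.trans m4).mono (by omega) (by omega),
    ⟨P4.1.mono (by omega), P4.2⟩, c4.mono (by omega), fun k => ?_⟩
  rcases d5 k with rfl | rfl | rfl
  · exact o4 k d1.symm ▸ v4 k _ d1.symm u4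
  · exact u5
  · exact o4 k d4 ▸ v4 k _ d4 u3

/-- From a point with three transversal layers to a point with two. -/
theorem conn_scaffold {w : List P} {q r : P} {e : Fin 3} (hw : 2 ≤ w.length) (hq : 0 ≤ q 2)
    (hr : 0 ≤ r 2) (h1 : ∀ k, Tr w k (q k)) (h2 : ∀ k, k ≠ e → Tr w k (r k)) :
    Conn w q r (d1 q r) ∧ r ∉ w := by
  obtain ⟨i, j, ie, je, ij, all⟩ : ∃ i j : Fin 3, i ≠ e ∧ j ≠ e ∧ i ≠ j ∧
      ∀ k, k = i ∨ k = j ∨ k = e := by
    clear h2
    revert e
    decide
  have hsum : d1 q r = (r i - q i).natAbs + (r j - q j).natAbs + (r e - q e).natAbs := by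
    rw [d1_eq]
    clear h1 h2 all
    fin_cases i <;> fin_cases j <;> fin_cases e <;> simp at ie je ij ⊢ <;> omega
  have seg : ∀ (k : Fin 3) (a b : P), On k a b → 0 ≤ a 2 → 0 ≤ b 2 → (∀ x, On k a x → x ∉ w) →
      Conn w a b (b k - a k).natAbs := fun k a b hab ha hb hf =>
    conn_line _ hab le_rfl fun x hx h => ⟨hf x hx, by
      by_cases h2 : k = 2
      · subst h2; omega
      · rw [hx 2 (Ne.symm h2)]; exact ha⟩
  have z : ∀ (a : P) (k : Fin 3), 0 ≤ a 2 → 0 ≤ Function.update a k (r k) 2 := fun a k ha => by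
    by_cases h2 : k = 2
    · subst h2; simpa using hr
    · rwa [Function.update_of_ne (Ne.symm h2)]
  have s1 := seg i q _ (on_update i q (r i)) hq (z _ _ hq) fun x hx =>
    Tr.free hw je (by rw [hx j ij.symm]; exact h1 j) (by rw [hx e ie.symm]; exact h1 e)
  have s2 := seg j _ _ (on_update j (Function.update q i (r i)) (r j)) (z _ _ hq)
    (z _ _ (z _ _ hq)) fun x hx => Tr.free hw ie
      (by rw [hx i ij, Function.update_self]; exact h2 i ie)
      (by rw [hx e je.symm, Function.update_of_ne ie.symm]; exact h1 e)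
  have o3 : On e (Function.update (Function.update q i (r i)) j (r j)) r := fun k hk => by
    rcases all k with rfl | rfl | rfl
    · rw [Function.update_of_ne ij, Function.update_self]
    · rw [Function.update_self]
    · exact absurd rfl hk
  have s3 := seg e _ _ o3 (z _ _ (z _ _ hq)) hr fun x hx => Tr.free hw ij
    (by rw [hx i ie, ← o3 i ie]; exact h2 i ie) (by rw [hx j je, ← o3 j je]; exact h2 j je)
  refine ⟨((s1.trans s2).trans s3).mono (le_of_eq ?_), Tr.free hw ij (h2 i ie) (h2 j je)⟩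
  rw [hsum]
  simp [Function.update_of_ne ij.symm, Function.update_of_ne ie.symm, Function.update_of_ne je.symm]

/-- Appending a free path that ends next to the head. -/
theorem close_path {w : List P} {y : P} {c : ℕ} (hg : Good w) (hw : w ≠ [])
    (h : Conn w (lt w) y (d1 (lt w) (hd w) + c)) (hy : Adj y (hd w)) :
    ∃ w', w = w'.take w.length ∧ Good w' ∧ jn w' ≤ jn w ∧ Adj (lt w') (hd w') ∧
      sz Finset.univ w' ≤ 2 * (sz Finset.univ w + c + 1) ∧
      ∀ θ : Par, pot θ Finset.univ w ≤ pot θ Finset.univ w' + kap θ * (c + 1 : ℕ) := by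
  obtain ⟨γ, g1, g2, g3, g4, g5⟩ := h.path
  have hg' : Good (w ++ γ) := ⟨List.Nodup.append hg.1 g1 fun x a b => (g5 x b).1 a, fun p hp =>
    (List.mem_append.1 hp).elim (hg.2 p) fun h => (g5 p h).2⟩
  have hcs : ∀ f : P → P → ℕ, cs f (w ++ γ) = cs f w + cs f (lt w :: γ) := fun f => by
    cases γ with
    | nil => simp
    | cons x l =>
      rw [cs_append f hw (by simp), cs_cons_cons, hd_cons, add_assoc]
  have hlt : lt (w ++ γ) = y := by
    cases γ with
    | nil => simpa using g3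
    | cons x l => rw [lt_append _ (by simp), ← g3, lt_cons_cons]
  have h1 : cs jmp (lt w :: γ) = 0 := jn_eq_zero.2 g2
  have h2 : cs d1 (lt w :: γ) = γ.length := by simpa [len] using len_of_chain g2
  have h3 : d1 y (hd w) = 1 := hy
  have ht : tot Finset.univ (w ++ γ) = len w + γ.length + 1 := by
    simp only [tot, len, hcs, h2, hlt, hd_append hw, dI_univ, h3]
  have ht' : tot Finset.univ w = len w + d1 (lt w) (hd w) := rfl
  refine ⟨w ++ γ, by simp, hg', by simp [jn, hcs, h1], by rwa [hlt, hd_append hw], ?_, fun θ => ?_⟩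
  · have h4 : bx (w ++ γ) ≤ bx w + γ.length := bx_le.2 fun p hp i => by
      rcases List.mem_append.1 hp with hp | hp
      · exact (le_bx hp i).trans (by omega)
      · have a1 := d1_hd_le_len (w := lt w :: γ) (List.mem_cons_of_mem _ hp)
        have a2 := coord_le_d1 (lt w) p i
        have a3 := le_bx (lt_mem hw) i
        simp only [hd_cons, len, h2] at a1
        omega
    unfold sz
    omega
  · have h4 := phi_near θ (V := w.toFinset) (W := (w ++ γ).toFinset) (m := γ.length)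
      (fun x hx => by simp [List.mem_toFinset.1 hx]) (by rw [hg'.card, hg.card]; simp)
    have h5 : (γ.length : ℝ) ≤ d1 (lt w) (hd w) + c := by exact_mod_cast g4
    have h6 := mul_le_mul_of_nonneg_left h5 (kap_nonneg θ)
    rw [abs_le] at h4
    simp only [pot, ht, ht', List.length_append]
    push_cast
    linarith [h4.1]

theorem join : JoinStmt := by
  intro s s' hs _
  obtain ⟨c1, h1⟩ := vent s s' 0 hs
  obtain ⟨c2, h2⟩ := vent s s' c1 hs
  obtain ⟨n, hn⟩ : ∃ n, n = c1 + 2 * c2 + 5 := ⟨_, rfl⟩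
  refine ⟨10 * (n + 1), fun B => ⟨Rel B (n + 1), fan_Rel B (n + 1), ?_⟩⟩
  intro j g g' η w hg hw hj hη hM hM' hB
  have hη' : 10 * n + 10 + c1 * j + c2 * j + 100 * g + 100 * (s * g') ≤ η := by
    have a1 : (c1 + c2) * j ≤ 10 * (n + 1) * j := Nat.mul_le_mul_right _ (by omega)
    rw [hη, mul_add (10 * (n + 1)), mul_one, mul_assoc 100]
    rw [add_mul] at a1
    omega
  clear hη
  have fin : ∀ (η0 c : ℕ) (u : List P) (y : P), Mv n η0 w u → u ≠ [] → η0 + c + 1 ≤ η →
      Conn u (lt u) y (d1 (lt u) (hd u) + c) → Adj y (hd u) →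
      ∃ w', Rel B (n + 1) w' w ∧ Good w' ∧ jn w' ≤ jn w ∧ Adj (lt w') (hd w') ∧
        sz Finset.univ w' ≤ 2 * (sz Finset.univ w + η) ∧
        ∀ θ : Par, pot θ Finset.univ w ≤ pot θ Finset.univ w' + kap θ * η := by
    intro η0 c u y m hu hc a b
    obtain ⟨w', e1, e2, e3, e4, e5, e6⟩ := close_path m.good hu a b
    have := m.sz_le
    refine ⟨w', ?_, e2, e3.trans m.jn_le, e4, by omega, fun θ => ?_⟩
    · rw [add_comm]
      refine (El.rel (Or.inr (Or.inr (Or.inr (Or.inl ⟨u.length, ?_, e1⟩))))).trans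
        (m.rel B (by omega))
      exact Finset.mem_range.2 (Nat.lt_succ_of_le (m.length_le (by omega)))
    · have a1 := m.pot_le θ
      have a2 := e6 θ
      have a3 : ((η0 : ℝ) + (c + 1 : ℕ)) ≤ η := by exact_mod_cast hc
      have a4 := mul_le_mul_of_nonneg_left a3 (kap_nonneg θ)
      linarith
  by_cases hl : w.length ≤ n
  · cases w with
    | nil => exact absurd rfl hw
    | cons p t =>
      have m := mv_trim (l := [p]) (t := t) hg (by simp)
      simp only [List.length_cons] at hl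
      refine fin (2 * n) 1 [p] (p + ev 0) (m.mono (by omega) (by omega)) (by simp) (by omega) ?_
        (adj_ev p 0).symm
      refine ((Conn.refl 0).step (adj_ev p 0) ?_ ?_).mono (by omega)
      · simpa using (adj_ev (0 : P) 0).ne.symm
      · simpa [ev_apply] using hg.2 p (by simp)
  · have m0 := mv_rev hg
    have z0 := m0.sz_le
    obtain ⟨w1, -, q1, -, m1, -, a1, a2⟩ := h1 j g g' _ w.reverse (hd w.reverse) (fun _ => False)
      m0.good (m0.jn_le.trans hj) (by simp; omega) rfl (by rw [mul_add]; omega)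
      (by rw [mul_add]; omega) ⟨.refl _, fun _ h => h.elim⟩
    have t1 := (m0.trans m1).trans (mv_rev m1.good)
    have z1 := t1.sz_le
    have l1 := t1.len_le
    rw [mul_add] at t1 z1
    obtain ⟨w2, r, q, e, m2, a3, a4, a5⟩ := h2 j g g' _ w1.reverse q1 (fun _ => True)
      t1.good (t1.jn_le.trans hj) (by omega) rfl (by rw [mul_add]; omega) (by rw [mul_add]; omega)
      ⟨hd_reverse w1 ▸ a1.sub fun x hx => List.mem_reverse.1 hx, fun k _ => (a2 k).reverse⟩
    rw [mul_add] at m2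
    have t2 := t1.trans m2
    have l2 := t2.len_le
    have n2 : w2 ≠ [] := fun h => by
      rw [h] at l2
      simp at l2
      omega
    obtain ⟨b1, b2⟩ := conn_scaffold (e := e) (by omega) (a4.nonneg (t2.good.2 _ (lt_mem n2)))
      (a3.1.nonneg (t2.good.2 _ (hd_mem n2))) a5 fun k hk => a3.2 k ⟨trivial, hk⟩
    obtain ⟨y, b3, b4⟩ := a3.1.rev (hd_mem n2) b2
    have b5 : d1 q r ≤ c2 + d1 (lt w2) (hd w2) + c2 := by
      have := d1_tri q (lt w2) r
      have := d1_tri (lt w2) (hd w2) r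
      have := a4.dist
      have := a3.1.dist
      have := d1_comm q (lt w2)
      omega
    exact fin _ (4 * c2) w2 y (t2.mono (by omega) le_rfl) n2 (by omega)
      (((a4.trans b1).trans b4).mono (by omega)) b3

end Pool.Agent.MP_7b45f6_mp.H32
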