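import Pool.Agent.MP_7b45f6_mp.H32.Join
import Pool.Agent.MP_7b45f6_mp.H11R.MAIN
import Pool.Agent.MP_7b45f6_mp.H80R.LAD
import Pool.Agent.MP_7b45f6_mp.H52.CONV
import Pool.Agent.MP_7b45f6_mp.H99.POP
import Pool.Agent.MP_7b45f6_mp.H71.HALF
import Pool.Agent.MP_7b45f6_mp.H94.WALK
import Pool.Agent.MP_7b45f6_mp.H17.LADA
import Pool.Agent.MP_7b45f6_mp.H36.POLY
import Pool.Agent.MP_7b45f6_mp.H49.TB
import Pool.Agent.MP_7b45f6_mp.H16.CLOSE
import Pool.Agent.MP_7b45f6_mp.H86.CUT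
import Pool.Agent.MP_7b45f6_mp.H65.MERGE
import Pool.Agent.MP_7b45f6_mp.H9R.DBL

set_option autoImplicit false

namespace Pool.Agent.MP_7b45f6_mp.H32

theorem main : MainStmt :=
  main_of tb (close_of join) merge (dbl_of cut half) (lad_of ladA pop) (walk_of conv) (poly_of conv)

end Pool.Agent.MP_7b45f6_mp.H32
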