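import Pool.Agent.MP_7b45f6_mp.H32.Ins

/-!
# Elementary moves, their cost and their fan-out
-/

set_option autoImplicit false

namespace Pool.Agent.MP_7b45f6_mp.H32

open Classical

/-- The sites above a staircase: height `b` near level `a` of coordinate `j`, rising to `y`. -/
def stair (i j : Fin 3) (a b y : ℤ) : Set P :=
  {x | min y (b + max 0 (((x j - a).natAbs : ℤ) - 1)) < x i}

/-- The sites above a plane. -/
def flat (i : Fin 3) (c : ℤ) : Set P := stair i (i + 1) 0 c c

theorem mem_stair {i j : Fin 3} {a b y : ℤ} {x : P} :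
    x ∈ stair i j a b y ↔ min y (b + max 0 (((x j - a).natAbs : ℤ) - 1)) < x i := Iff.rfl

theorem mem_flat {i : Fin 3} {c : ℤ} {x : P} : x ∈ flat i c ↔ c < x i := by
  rw [flat, mem_stair]
  omega

theorem ne_succ (i : Fin 3) : i ≠ i + 1 := by
  fin_cases i <;> decide

theorem two_coord_le {i j : Fin 3} (h : i ≠ j) (p q : P) :
    (p i - q i).natAbs + (p j - q j).natAbs ≤ d1 p q := by
  rw [d1_eq]
  fin_cases i <;> fin_cases j <;> simp at h ⊢ <;> omega

theorem lip_stair {i j : Fin 3} (h : i ≠ j) (a b y : ℤ) : Lip (stair i j a b y) i where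
  up p hp := by
    simp only [mem_stair, Pi.add_apply, ev_same, ev_ne h.symm] at hp ⊢
    omega
  lip p q hp hq hpq := by
    have h1 := two_coord_le h p q
    have h2 : d1 p q = 1 := hpq
    simp only [mem_stair, Pi.add_apply, ev_same, ev_ne h.symm] at hp hq ⊢
    omega

theorem lip_flat (i : Fin 3) (c : ℤ) : Lip (flat i c) i := lip_stair (ne_succ i) _ _ _

/-- One decoding step with parameters bounded by `B`. -/
def El (B : ℕ) (w' w : List P) : Prop :=
  w = w' ∨ w = w'.reverse ∨ (∃ p ∈ box B, w = w' ++ [p]) ∨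
    (∃ m ∈ Finset.range (B + 1), w = w'.take m) ∨
    ∃ t ∈ (Finset.univ : Finset (Fin 3 × Fin 3)) ×ˢ box B, t.1.1 ≠ t.1.2 ∧
      w' = ins (stair t.1.1 t.1.2 (t.2 0) (t.2 1) (t.2 2)) t.1.1 w

/-- `n` decoding steps. -/
def Rel (B : ℕ) : ℕ → List P → List P → Prop
  | 0 => fun w' w => w = w'
  | n + 1 => fun w' w => ∃ u, Rel B n w' u ∧ El B u w

theorem fan_El (B : ℕ) : Fan (El B) ((B + 2) ^ 10) := by
  have h5 := fan_enc ((Finset.univ : Finset (Fin 3 × Fin 3)) ×ˢ box B)
    (fun t (w' w : List P) => t.1.1 ≠ t.1.2 ∧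
      w' = ins (stair t.1.1 t.1.2 (t.2 0) (t.2 1) (t.2 2)) t.1.1 w) fun t _ y x x' h h' => by
    rw [← dec_ins (lip_stair h.1 (t.2 0) (t.2 1) (t.2 2)) x, ← h.2, h'.2,
      dec_ins (lip_stair h.1 _ _ _)]
  have h := (fan_fun fun w : List P => w).or ((fan_fun fun w : List P => w.reverse).or
    ((fan_dec (box B) fun p (w : List P) => w ++ [p]).or
      ((fan_dec (Finset.range (B + 1)) fun m (w : List P) => w.take m).or h5)))
  refine h.mono (fun _ _ h => h) ?_
  simp only [Finset.card_product, card_box, Finset.card_range, Finset.card_univ, Fintype.card_prod,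
    Fintype.card_fin]
  have h1 : (2 * B + 1) ^ 3 ≤ 8 * (B + 2) ^ 3 := by
    have := Nat.pow_le_pow_left (show 2 * B + 1 ≤ 2 * (B + 2) by omega) 3
    rwa [mul_pow] at this
  have h2 : B + 2 ≤ (B + 2) ^ 3 := Nat.le_self_pow (by omega) _
  have h3 : 2 ^ 7 ≤ (B + 2) ^ 7 := Nat.pow_le_pow_left (by omega) _
  have h4 : (B + 2) ^ 10 = (B + 2) ^ 7 * (B + 2) ^ 3 := by ring
  have h6 := Nat.mul_le_mul_right ((B + 2) ^ 3) h3
  omega

theorem fan_Rel (B n : ℕ) : Fan (Rel B n) ((B + 2) ^ (10 * n)) := by
  induction n with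
  | zero => exact fan_fun fun w : List P => w
  | succ n ih => exact (ih.comp (fan_El B)).mono (fun _ _ h => h) (le_of_eq (by ring))

theorem Rel.trans {B n m : ℕ} {x y z : List P} (h : Rel B n x y) (h' : Rel B m y z) :
    Rel B (n + m) x z := by
  induction m generalizing z with
  | zero =>
    obtain rfl : z = y := h'
    exact h
  | succ m ih =>
    obtain ⟨u, h1, h2⟩ := h'
    exact ⟨u, ih h1, h2⟩

theorem Rel.mono {B n m : ℕ} {x y : List P} (h : Rel B n x y) (hm : n ≤ m) : Rel B m x y := by
  induction hm with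
  | refl => exact h
  | step _ ih => exact ⟨y, ih, Or.inl rfl⟩

theorem El.rel {B : ℕ} {x y : List P} (h : El B x y) : Rel B 1 x y := ⟨x, rfl, h⟩

/-- A move with `n` decoding steps and cost `η`. -/
structure Mv (n η : ℕ) (w w' : List P) : Prop where
  rel : ∀ B, sz Finset.univ w + η + 1 ≤ B → Rel B n w' w
  good : Good w'
  jn_le : jn w' ≤ jn w
  sz_le : sz Finset.univ w' ≤ sz Finset.univ w + η
  pot_le : ∀ θ : Par, pot θ Finset.univ w ≤ pot θ Finset.univ w' + kap θ * η
  len_le : w.length ≤ w'.length + n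

theorem Mv.refl {w : List P} (h : Good w) : Mv 0 0 w w :=
  ⟨fun _ _ => rfl, h, le_rfl, le_rfl, fun _ => by simp, le_rfl⟩

theorem Mv.trans {n m η η' : ℕ} {x y z : List P} (h : Mv n η x y) (h' : Mv m η' y z) :
    Mv (n + m) (η + η') x z where
  rel B hB := by
    have := h.sz_le
    rw [add_comm n]
    exact (h'.rel B (by omega)).trans (h.rel B (by omega))
  good := h'.good
  jn_le := h'.jn_le.trans h.jn_le
  sz_le := by have := h.sz_le; have := h'.sz_le; omega
  pot_le θ := by
    have := h.pot_le θ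
    have := h'.pot_le θ
    push_cast
    linarith
  len_le := by have := h.len_le; have := h'.len_le; omega

theorem Mv.mono {n m η η' : ℕ} {x y : List P} (h : Mv n η x y) (hn : n ≤ m) (hη : η ≤ η') :
    Mv m η' x y where
  rel B hB := (h.rel B (by omega)).mono hn
  good := h.good
  jn_le := h.jn_le
  sz_le := by have := h.sz_le; omega
  pot_le θ := by
    have h1 := h.pot_le θ
    have h2 : (η : ℝ) ≤ η' := by exact_mod_cast hη
    have := mul_le_mul_of_nonneg_left h2 (kap_nonneg θ)
    linarith
  len_le := by have := h.len_le; omega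

theorem mv_rev {w : List P} (h : Good w) : Mv 1 0 w w.reverse where
  rel B _ := El.rel (Or.inr (Or.inl (List.reverse_reverse w).symm))
  good := h.perm (List.reverse_perm w)
  jn_le := (jn_reverse w).le
  sz_le := by
    have := bx_mono (w := w.reverse) (w' := w) fun p hp => List.mem_reverse.1 hp
    simp only [sz, tot_reverse]
    omega
  pot_le θ := by simp [pot, tot_reverse]
  len_le := by simp

theorem mv_drop {l : List P} {p : P} (h : Good (l ++ [p])) (hl : l ≠ []) :
    Mv 1 2 (l ++ [p]) l := by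
  have ht : tot Finset.univ l ≤ tot Finset.univ (l ++ [p]) := by
    have := d1_tri (lt l) p (hd l)
    simp only [tot, len, cs_append _ hl (List.cons_ne_nil p []), dI_univ, lt_concat, hd_append hl,
      hd_cons, cs_single]
    omega
  have hg := h.sub (List.sublist_append_left l [p])
  refine ⟨fun B hB => El.rel (Or.inr (Or.inr (Or.inl ⟨p, mem_box.2 fun i => ?_, rfl⟩))), hg, ?_, ?_,
    fun θ => ?_, by simp⟩
  · have := le_bx (w := l ++ [p]) (p := p) (by simp) i
    unfold sz at hB
    omega
  · have := cs_append_ge jmp l [p]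
    unfold jn
    omega
  · have := bx_mono (w := l) (w' := l ++ [p]) fun x hx => by simp [hx]
    unfold sz
    omega
  · have h1 := phi_near θ (V := l.toFinset) (W := (l ++ [p]).toFinset) (m := 1)
      (fun x hx => by simp [List.mem_toFinset.1 hx]) (by rw [h.card, hg.card]; simp)
    have h2 : (tot Finset.univ l : ℝ) ≤ tot Finset.univ (l ++ [p]) := by exact_mod_cast ht
    have h3 := mul_le_mul_of_nonneg_left h2 (kap_nonneg θ)
    rw [abs_le] at h1
    simp only [pot, List.length_append, List.length_singleton]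
    push_cast at h1 ⊢
    linarith [h1.2]

theorem mv_trim {l t : List P} (h : Good (l ++ t)) (hl : l ≠ []) :
    Mv t.length (2 * t.length) (l ++ t) l := by
  induction t using List.reverseRecOn with
  | nil => simpa using Mv.refl (by simpa using h)
  | append_singleton t p ih =>
    rw [← List.append_assoc] at h ⊢
    have h1 := mv_drop h (by simp [hl])
    exact (h1.trans (ih h1.good)).mono (by simp; omega) (by simp; omega)

theorem mv_ins {i j : Fin 3} {a b y : ℤ} {w : List P} {g k η : ℕ} (hij : i ≠ j) (h : Good w)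
    (hw : w ≠ []) (ho : Once (stair i j a b y) w) (hz : i = 2 → ∀ p ∈ stair i j a b y, 1 ≤ p 2)
    (hg : (bd (stair i j a b y) i w).card ≤ g) (hk : jn w ≤ k) (hη : 3 * g + k + 2 ≤ η)
    (ha : a.natAbs ≤ bx w + η) (hb : b.natAbs ≤ bx w + η) (hy : y.natAbs ≤ bx w + η) :
    Mv 1 η w (ins (stair i j a b y) i w) := by
  have hl := lip_stair hij a b y
  obtain ⟨h1, h2, h3⟩ := jn_len_ins (S := stair i j a b y) (i := i) w
  have h4 := length_ins hl h ho
  have h5 : tot Finset.univ (ins (stair i j a b y) i w) + w.length ≤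
      tot Finset.univ w + (ins (stair i j a b y) i w).length + k + 1 := by
    have := d1_Ph (S := stair i j a b y) (i := i) (lt w) (hd w)
    simp only [tot, dI_univ, lt_ins hw, hd_ins hw]
    omega
  refine ⟨fun B hB => El.rel (Or.inr (Or.inr (Or.inr (Or.inr ⟨((i, j), ![a, b, y]), ?_, hij, rfl⟩)))),
    good_ins hl h ho, h1, ?_, fun θ => ?_, by omega⟩
  · refine Finset.mem_product.2 ⟨Finset.mem_univ _, mem_box.2 fun t => ?_⟩
    unfold sz at hB
    fin_cases t <;> simp <;> omega
  · have := bx_ins (S := stair i j a b y) (i := i) w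
    unfold sz
    omega
  · have h6 := phi_ins θ hl hz w
    have h7 : (tot Finset.univ (ins (stair i j a b y) i w) : ℝ) + w.length ≤
      tot Finset.univ w + (ins (stair i j a b y) i w).length + k + 1 := by exact_mod_cast h5
    have h8 : ((bd (stair i j a b y) i w).card : ℝ) ≤ g := by exact_mod_cast hg
    have h9 : (3 * g + k + 2 : ℝ) ≤ η := by exact_mod_cast hη
    have h10 : (tot Finset.univ (ins (stair i j a b y) i w) : ℝ) -
        (ins (stair i j a b y) i w).length + 3 * (bd (stair i j a b y) i w).card ≤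
        tot Finset.univ w - w.length + η := by linarith
    have h11 := mul_le_mul_of_nonneg_left h10 (kap_nonneg θ)
    unfold pot
    linarith

theorem once_flat (i : Fin 3) (c : ℤ) (w : List P) : Once (flat i c) w := by
  intro x p q _ _ h1 h2 h3 h4 h5
  rw [mem_flat] at h3 h4 h5
  rcases h1.of_ne (i := i) (by omega) with rfl | rfl <;>
    rcases h2.of_ne (i := i) (by omega) with rfl | rfl <;>
    simp only [Pi.add_apply, Pi.sub_apply, ev_same] at h4 h5 <;> first | rfl | omega

theorem bd_flat (i : Fin 3) (c : ℤ) (w : List P) : (bd (flat i c) i w).card = cnt w i c := by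
  unfold bd cnt
  congr 1
  refine Finset.filter_congr fun p _ => ?_
  simp only [mem_flat, Pi.add_apply, ev_same]
  omega

theorem mv_flat {i : Fin 3} {c : ℤ} {w : List P} {g k η : ℕ} (h : Good w) (hw : w ≠ [])
    (hz : i = 2 → 0 ≤ c) (hg : cnt w i c ≤ g) (hk : jn w ≤ k) (hη : 3 * g + k + 2 ≤ η)
    (hc : c.natAbs ≤ bx w + η) : Mv 1 η w (ins (flat i c) i w) :=
  mv_ins (ne_succ i) h hw (once_flat i c w)
    (fun hi p hp => by
      have h1 := mem_flat.1 hp
      have h2 := hz hi
      subst hi
      omega)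
    ((bd_flat i c w).trans_le hg) hk hη (by simp) hc hc

end Pool.Agent.MP_7b45f6_mp.H32
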