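import Pool.Agent.MP_7b45f6_mp.H32.Core

/-!
# The energy of a finite set of sites
-/

set_option autoImplicit false

namespace Pool.Agent.MP_7b45f6_mp.H32

open Classical

theorem kap_nonneg (θ : Par) : 0 ≤ kap θ := by unfold kap; positivity

theorem A2_mono {V W : Finset P} (h : V ⊆ W) : A2 V ≤ A2 W :=
  Finset.card_le_card (Finset.filter_subset_filter _ (Finset.product_subset_product h h))

/-- Adjacent pairs with an entry in `N`. -/
theorem card_pairs_le (N : Finset P) (s : Finset (P × P))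
    (h : ∀ x ∈ s, Adj x.1 x.2 ∧ (x.1 ∈ N ∨ x.2 ∈ N)) : s.card ≤ 12 * N.card := by
  have h0 : Fan (fun (_ : Unit) (p : P) => p ∈ N) N.card := fun _ t ht => Finset.card_le_card ht
  have h1 : Fan (fun (p : P) (x : P × P) => x.1 = p ∧ Adj x.1 x.2) 6 := fun p t ht => by
    rw [← Finset.card_image_of_injOn (f := Prod.snd) (s := t) fun x hx y hy e =>
      Prod.ext ((ht x hx).1.trans (ht y hy).1.symm) e]
    refine fan_adj p _ fun q hq => ?_
    obtain ⟨x, hx, rfl⟩ := Finset.mem_image.1 hq
    exact (ht x hx).1 ▸ (ht x hx).2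
  have h2 : Fan (fun (p : P) (x : P × P) => x.2 = p ∧ Adj x.1 x.2) 6 := fun p t ht => by
    rw [← Finset.card_image_of_injOn (f := Prod.fst) (s := t) fun x hx y hy e =>
      Prod.ext e ((ht x hx).1.trans (ht y hy).1.symm)]
    refine fan_adj p _ fun q hq => ?_
    obtain ⟨x, hx, rfl⟩ := Finset.mem_image.1 hq
    exact (ht x hx).1 ▸ (ht x hx).2.symm
  refine ((h0.comp (h1.or h2)) () s fun x hx => ?_).trans (by omega)
  obtain ⟨h3, h4 | h4⟩ := h x hx
  · exact ⟨x.1, h4, Or.inl ⟨rfl, h3⟩⟩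
  · exact ⟨x.2, h4, Or.inr ⟨rfl, h3⟩⟩

theorem A2_le_add {V W : Finset P} (h : V ⊆ W) : A2 W ≤ A2 V + 12 * (W.card - V.card) := by
  rw [← Finset.card_sdiff_of_subset h, A2,
    ← Finset.card_filter_add_card_filter_not (s := (W ×ˢ W).filter fun x => Adj x.1 x.2)
      (fun x => x.1 ∈ V ∧ x.2 ∈ V)]
  refine add_le_add (Finset.card_le_card fun x hx => ?_) (card_pairs_le _ _ fun x hx => ?_)
  · simp only [Finset.mem_filter, Finset.mem_product] at hx ⊢
    exact ⟨hx.2, hx.1.2⟩
  · simp only [Finset.mem_filter, Finset.mem_product, Finset.mem_sdiff] at hx ⊢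
    tauto

theorem visits_mono {V W : Finset P} (h : V ⊆ W) : visits V ≤ visits W :=
  Finset.card_le_card (Finset.filter_subset_filter _ h)

theorem visits_le_add {V W : Finset P} (h : V ⊆ W) : visits W ≤ visits V + (W.card - V.card) := by
  rw [← Finset.card_sdiff_of_subset h]
  refine le_trans (Finset.card_le_card (t := (V.filter fun p => p 2 = 0) ∪ (W \ V)) fun x hx => ?_)
    (Finset.card_union_le _ _)
  simp only [Finset.mem_filter, Finset.mem_union, Finset.mem_sdiff] at hx ⊢
  tauto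

theorem phi_aux (θ : Par) {x y z m : ℝ} (hx : |x| ≤ m) (hy : |y| ≤ 12 * m) (hz : |z| ≤ m) :
    |θ.a * x + θ.b / 2 * y - θ.l * z| ≤ kap θ * m := by
  have h1 : |θ.a * x| ≤ |θ.a| * m := by
    rw [abs_mul]; exact mul_le_mul_of_nonneg_left hx (abs_nonneg _)
  have h2 : |θ.b / 2 * y| ≤ 6 * |θ.b| * m := by
    rw [abs_mul, abs_div, abs_two]
    have := mul_le_mul_of_nonneg_left hy (abs_nonneg θ.b)
    linarith
  have h3 : |θ.l * z| ≤ |θ.l| * m := by
    rw [abs_mul]; exact mul_le_mul_of_nonneg_left hz (abs_nonneg _)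
  have h4 := abs_sub (θ.a * x + θ.b / 2 * y) (θ.l * z)
  have h5 := abs_add_le (θ.a * x) (θ.b / 2 * y)
  unfold kap
  linarith

/-- Adding at most `m` sites. -/
theorem phi_near (θ : Par) {V W : Finset P} {m : ℕ} (h : V ⊆ W) (hm : W.card ≤ V.card + m) :
    |phi θ W - phi θ V| ≤ kap θ * m := by
  have h1 := A2_mono h
  have h2 := A2_le_add h
  have h3 := visits_mono h
  have h4 := visits_le_add h
  have h5 := Finset.card_le_card h
  have h6 : A2 W ≤ A2 V + 12 * m := by omega
  have h7 : visits W ≤ visits V + m := by omega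
  have e : phi θ W - phi θ V = θ.a * ((visits W : ℝ) - visits V) + θ.b / 2 * ((A2 W : ℝ) - A2 V) -
      θ.l * ((W.card : ℝ) - V.card) := by unfold phi; ring
  rw [e]
  refine phi_aux θ ?_ ?_ ?_ <;> rw [abs_le] <;> constructor <;>
    simp only [neg_le_sub_iff_le_add, sub_le_iff_le_add] <;> norm_cast <;> omega

@[simp] theorem phi_empty (θ : Par) : phi θ ∅ = 0 := by simp [phi, visits, A2]

theorem abs_phi_le (θ : Par) (V : Finset P) : |phi θ V| ≤ kap θ * V.card := by
  simpa using phi_near θ (Finset.empty_subset V) (m := V.card) (by simp)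

@[simp] theorem pot_nil (θ : Par) (I : Finset (Fin 3)) : pot θ I [] = 0 := by
  simp [pot, tot, len]

/-- Two disjoint sets that touch only at sites of `N`. -/
theorem phi_union (θ : Par) {V W : Finset P} (N : Finset P) (h : Disjoint V W)
    (hN : ∀ p ∈ V, ∀ q ∈ W, Adj p q → p ∈ N) :
    |phi θ (V ∪ W) - phi θ V - phi θ W| ≤ kap θ * N.card := by
  have h1 : visits (V ∪ W) = visits V + visits W := by
    rw [visits, Finset.filter_union, Finset.card_union_of_disjoint
      (Finset.disjoint_filter_filter h)]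
    rfl
  have h2 : (V ∪ W).card = V.card + W.card := Finset.card_union_of_disjoint h
  have h3 : A2 V + A2 W ≤ A2 (V ∪ W) := by
    rw [A2, A2, ← Finset.card_union_of_disjoint (Finset.disjoint_filter_filter
      (Finset.disjoint_product.2 (Or.inl h)))]
    refine Finset.card_le_card fun x hx => ?_
    simp only [Finset.mem_filter, Finset.mem_product, Finset.mem_union] at hx ⊢
    tauto
  have h4 : A2 (V ∪ W) ≤ A2 V + A2 W + 12 * N.card := by
    rw [A2, ← Finset.card_filter_add_card_filter_not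
      (s := ((V ∪ W) ×ˢ (V ∪ W)).filter fun x => Adj x.1 x.2) (fun x => x.1 ∈ N ∨ x.2 ∈ N),
      add_comm]
    refine add_le_add (le_trans (Finset.card_le_card fun x hx => ?_) (Finset.card_union_le _ _))
      (card_pairs_le _ _ fun x hx => ?_)
    · simp only [Finset.mem_filter, Finset.mem_product, Finset.mem_union] at hx ⊢
      obtain ⟨⟨⟨h5 | h5, h6 | h6⟩, h7⟩, h8⟩ := hx
      · exact Or.inl ⟨⟨h5, h6⟩, h7⟩
      · exact absurd (Or.inl (hN _ h5 _ h6 h7)) h8
      · exact absurd (Or.inr (hN _ h6 _ h5 h7.symm)) h8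
      · exact Or.inr ⟨⟨h5, h6⟩, h7⟩
    · simp only [Finset.mem_filter] at hx
      exact ⟨hx.1.2, hx.2⟩
  have e : phi θ (V ∪ W) - phi θ V - phi θ W =
      θ.a * 0 + θ.b / 2 * ((A2 (V ∪ W) : ℝ) - A2 V - A2 W) - θ.l * 0 := by
    unfold phi
    rw [h1, h2]
    push_cast
    ring
  rw [e]
  have h5 : (A2 V : ℝ) + A2 W ≤ A2 (V ∪ W) := by exact_mod_cast h3
  have h6 : (A2 (V ∪ W) : ℝ) ≤ A2 V + A2 W + 12 * N.card := by exact_mod_cast h4
  have h7 : (0 : ℝ) ≤ N.card := by positivity
  refine phi_aux θ (by simp) ?_ (by simp)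
  rw [abs_le]
  constructor <;> linarith

/-- Maps that keep distinctness, the surface and adjacency. -/
theorem phi_image (θ : Par) {V : Finset P} {f : P → P} (hf : Set.InjOn f V)
    (hz : ∀ p ∈ V, f p 2 = 0 ↔ p 2 = 0) (ha : ∀ p ∈ V, ∀ q ∈ V, Adj (f p) (f q) ↔ Adj p q) :
    phi θ (V.image f) = phi θ V := by
  have h1 : (V.image f).card = V.card := Finset.card_image_of_injOn hf
  have h2 : visits (V.image f) = visits V := by
    rw [visits, Finset.filter_image, Finset.card_image_of_injOn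
      (hf.mono (Finset.coe_subset.2 (Finset.filter_subset _ _))), visits]
    congr 1
    exact Finset.filter_congr hz
  have h3 : A2 (V.image f) = A2 V := by
    symm
    refine Finset.card_bij (fun x _ => (f x.1, f x.2)) (fun x hx => ?_) (fun x hx y hy e => ?_)
      fun y hy => ?_
    · simp only [Finset.mem_filter, Finset.mem_product] at hx ⊢
      exact ⟨⟨Finset.mem_image_of_mem _ hx.1.1, Finset.mem_image_of_mem _ hx.1.2⟩,
        (ha _ hx.1.1 _ hx.1.2).2 hx.2⟩
    · simp only [Finset.mem_filter, Finset.mem_product, Prod.mk.injEq] at hx hy e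
      exact Prod.ext (hf hx.1.1 hy.1.1 e.1) (hf hx.1.2 hy.1.2 e.2)
    · simp only [Finset.mem_filter, Finset.mem_product, Finset.mem_image] at hy
      obtain ⟨⟨⟨p, hp, e1⟩, q, hq, e2⟩, h⟩ := hy
      refine ⟨(p, q), ?_, Prod.ext e1 e2⟩
      simp only [Finset.mem_filter, Finset.mem_product]
      exact ⟨⟨hp, hq⟩, (ha _ hp _ hq).1 (by rw [e1, e2]; exact h)⟩
  rw [phi, phi, h1, h2, h3]

/-- The same when adjacency may change at the sites of `N`. -/
theorem phi_image_near (θ : Par) {V : Finset P} (N : Finset P) {f : P → P} (hf : Set.InjOn f V)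
    (hz : ∀ p ∈ V, f p 2 = 0 ↔ p 2 = 0)
    (ha : ∀ p ∈ V, ∀ q ∈ V, p ∉ N → q ∉ N → (Adj (f p) (f q) ↔ Adj p q)) :
    |phi θ (V.image f) - phi θ V| ≤ 2 * kap θ * N.card := by
  have hs : V \ N ⊆ V := Finset.sdiff_subset
  have hf' : Set.InjOn f (V \ N : Finset P) := hf.mono (Finset.coe_subset.2 hs)
  have h1 := phi_image θ hf' (fun p hp => hz p (hs hp)) fun p hp q hq =>
    ha p (hs hp) q (hs hq) (Finset.mem_sdiff.1 hp).2 (Finset.mem_sdiff.1 hq).2
  have h0 : V.card ≤ (V \ N).card + N.card := Finset.card_le_card_sdiff_add_card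
  have h2 := phi_near θ hs h0
  have h3 := phi_near θ (Finset.image_subset_image (f := f) hs) (m := N.card) (by
    rwa [Finset.card_image_of_injOn hf, Finset.card_image_of_injOn hf'])
  rw [abs_le] at h2 h3 ⊢
  constructor <;> linarith [h2.1, h2.2, h3.1, h3.2]

/-- Isometries that fix the heights. -/
theorem phi_map (θ : Par) {f : P → P} (hd : ∀ p q, d1 (f p) (f q) = d1 p q)
    (hz : ∀ p, f p 2 = p 2) (w : List P) : phi θ (w.map f).toFinset = phi θ w.toFinset := by
  rw [show (w.map f).toFinset = w.toFinset.image f by ext; simp]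
  refine phi_image θ (fun p _ q _ e => ?_) (fun p _ => by rw [hz]) fun p _ q _ => by
    rw [Adj, hd, Adj]
  by_contra h
  have := d1_pos h
  rw [← hd, e, d1_self] at this
  omega

/-- Changing the growth rate. -/
theorem phi_l (a b l l' : ℝ) (V : Finset P) :
    phi ⟨a, b, l'⟩ V = phi ⟨a, b, l⟩ V + (l - l') * V.card := by
  unfold phi; ring

/-- The mirror in the plane `x i = c + 1/2`. -/
def mir (i : Fin 3) (c : ℤ) (p : P) : P := Function.update p i (2 * c + 1 - p i)

@[simp] theorem mir_same (i : Fin 3) (c : ℤ) (p : P) : mir i c p i = 2 * c + 1 - p i := by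
  simp [mir]

theorem mir_ne {i j : Fin 3} (h : j ≠ i) (c : ℤ) (p : P) : mir i c p j = p j := by
  simp [mir, h]

@[simp] theorem mir_mir (i : Fin 3) (c : ℤ) (p : P) : mir i c (mir i c p) = p := by
  funext j
  by_cases h : j = i
  · subst h; simp
  · simp [mir_ne h]

theorem d1_mir (i : Fin 3) (c : ℤ) (p q : P) : d1 (mir i c p) (mir i c q) = d1 p q := by
  refine Finset.sum_congr rfl fun j _ => ?_
  by_cases h : j = i
  · subst h
    simp only [mir_same]
    omega
  · simp [mir_ne h]

theorem dI_mir (I : Finset (Fin 3)) (i : Fin 3) (c : ℤ) (p : P) :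
    dI I p (mir i c p) = if i ∈ I then (2 * c + 1 - 2 * p i).natAbs else 0 := by
  split_ifs with h
  · rw [dI, Finset.sum_eq_single_of_mem i h fun j _ h => by simp [mir_ne h]]
    simp only [mir_same]
    omega
  · refine Finset.sum_eq_zero fun j hj => ?_
    have : j ≠ i := fun e => h (e ▸ hj)
    simp [mir_ne this]

end Pool.Agent.MP_7b45f6_mp.H32
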