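import Pool.Agent.MP_7b45f6_mp.H32.Phi

/-!
# The classes and the statements of the steps
-/

set_option autoImplicit false

namespace Pool.Agent.MP_7b45f6_mp.H32

open Classical Filter Topology

/-- The weight of a list of sites. -/
noncomputable def ew (θ : Par) (w : List P) : ℝ := Real.exp (phi θ w.toFinset)

/-- The weight with the jumps charged. -/
noncomputable def ep (θ : Par) (I : Finset (Fin 3)) (w : List P) : ℝ := Real.exp (pot θ I w)

/-- The size of a list. -/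
def sz (I : Finset (Fin 3)) (w : List P) : ℕ := bx w + tot I w

/-- Closed self-avoiding tours of length `n` that start at `p` (length two is allowed). -/
def Tour (p : P) (n : ℕ) : Set (List P) :=
  {w | Good w ∧ w.length = n ∧ hd w = p ∧ w.IsChain Adj ∧ Adj (lt w) (hd w)}

/-- The growth rate `θ.l` dominates the tours through the origin. -/
def Dom (θ : Par) : Prop := ∃ C : ℝ, ∀ n, Bd (Tour 0 n) (ew θ) C

/-- The same for tours with any starting point. -/
def DomAll (θ : Par) : Prop := ∃ C : ℝ, ∀ p n, Bd (Tour p n) (ew θ) (C * ((n : ℝ) + 3) ^ 2)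

/-- Single lists with at most `j` jumps, size at most `M` and excess length at most `R`. -/
def Sing (I : Finset (Fin 3)) (j M : ℕ) (R : ℝ) : Set (List P) :=
  {w | Good w ∧ jn w ≤ j ∧ sz I w ≤ M ∧ (tot I w : ℝ) ≤ w.length + R}

/-- The bound for single lists. -/
def Q (θ : Par) (I : Finset (Fin 3)) (C : ℝ) : Prop :=
  ∀ (j a : ℕ) (ρ δ : ℝ), 0 < ρ → 0 < δ → ∀ᶠ n : ℕ in atTop,
    Bd (Sing I j (a * n) (ρ * n)) (ep θ I) (Real.exp ((C * ρ + δ) * n))

/-- Systems: one list of type `I` and a list of closed lists. -/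
abbrev Sy : Type := List P × List (List P)

/-- All sites of a system. -/
def allp (x : Sy) : List P := x.1 ++ x.2.flatten

/-- Total length of a system. -/
def stot (I : Finset (Fin 3)) (x : Sy) : ℕ := tot I x.1 + (x.2.map (tot Finset.univ)).sum

/-- Total number of jumps of a system. -/
noncomputable def sjn (x : Sy) : ℕ := jn x.1 + (x.2.map jn).sum

/-- Systems with at most `k` closed lists. -/
def Sys (I : Finset (Fin 3)) (k j M : ℕ) (R : ℝ) : Set Sy :=
  {x | Good (allp x) ∧ x.2.length ≤ k ∧ sjn x ≤ j ∧ bx (allp x) + stot I x ≤ M ∧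
    (stot I x : ℝ) ≤ (allp x).length + R}

/-- The weight of a system with the jumps charged. -/
noncomputable def es (θ : Par) (I : Finset (Fin 3)) (x : Sy) : ℝ :=
  Real.exp (phi θ (allp x).toFinset - kap θ * ((stot I x : ℝ) - (allp x).length))

/-- The bound for systems. -/
def QS (θ : Par) (I : Finset (Fin 3)) (C : ℝ) : Prop :=
  ∀ (k j a : ℕ) (ρ δ : ℝ), 0 < ρ → 0 < δ → ∀ᶠ n : ℕ in atTop,
    Bd (Sys I k j (a * n) (ρ * n)) (es θ I) (Real.exp ((C * ρ + δ) * n))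

/-- Surgery: the closing jump is replaced by a path. -/
def JoinStmt : Prop :=
  ∀ s s' : ℕ, 0 < s → 0 < s' → ∃ c : ℕ, ∀ B : ℕ, ∃ ρ : List P → List P → Prop,
    Fan ρ ((B + 2) ^ c) ∧ ∀ (j g g' η : ℕ) (w : List P), Good w → w ≠ [] → jn w ≤ j →
      η = c * (j + 1) + 100 * g + 100 * s * g' → sz Finset.univ w + η + 1 ≤ s * g →
      sz Finset.univ w + η + 1 ≤ s' * g' → sz Finset.univ w + η + 1 ≤ B →
      ∃ w', ρ w' w ∧ Good w' ∧ jn w' ≤ jn w ∧ Adj (lt w') (hd w') ∧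
        sz Finset.univ w' ≤ 2 * (sz Finset.univ w + η) ∧
        ∀ θ : Par, pot θ Finset.univ w ≤ pot θ Finset.univ w' + kap θ * η

/-- Row TB. -/
def TBStmt : Prop := ∀ θ : Par, Dom θ → DomAll θ

/-- Row CLOSE. -/
def CloseStmt : Prop := ∀ θ : Par, DomAll θ → Q θ Finset.univ 0

/-- Row MERGE. -/
def MergeStmt : Prop :=
  ∀ (θ : Par) (I : Finset (Fin 3)) (C : ℝ), 0 ≤ C → Q θ Finset.univ 0 → Q θ I C → QS θ I C

/-- Distance to the plane `x i = c + 1/2`, rounded down. -/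
def ds (i : Fin 3) (c : ℤ) (p : P) : ℕ := if p i ≤ c then (c - p i).toNat else (p i - c - 1).toNat

theorem ds_eq (i : Fin 3) (c : ℤ) (p : P) : (2 * c + 1 - 2 * p i).natAbs = 2 * ds i c p + 1 := by
  unfold ds
  split_ifs <;> omega

/-- The charge of an ordinary piece. -/
def ch (i : Fin 3) (c : ℤ) (s : List P) : ℕ := len s + ds i c (hd s) + ds i c (lt s) + 1

/-- Row CUT: a list is cut into pieces that lie on one side of a plane. -/
def CutStmt : Prop :=
  ∀ (i : Fin 3) (c : ℤ) (w : List P), w ≠ [] → w.Nodup → ∃ x : Sy, w = allp x ∧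
    (∀ s ∈ x.1 :: x.2, s ≠ [] ∧ ((∀ p ∈ s, p i ≤ c) ∨ ∀ p ∈ s, c < p i)) ∧
    x.2.length ≤ jn w + cnt w i c + cnt w i (c + 1) ∧ sjn x ≤ jn w ∧
    len x.1 + ds i c (lt x.1) + (x.2.map (ch i c)).sum ≤ len w + ds i c (lt w)

/-- The charge of a one-sided system. -/
def hch (i : Fin 3) (c : ℤ) (I : Finset (Fin 3)) (x : Sy) : ℕ :=
  (if x.1 = [] then 0 else len x.1 + ds i c (lt x.1) + if i ∈ I then ds i c (hd x.1) else 0) +
    (x.2.map (ch i c)).sum

/-- One-sided systems. -/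
def Half (i : Fin 3) (c : ℤ) (σ : Prop) (I : Finset (Fin 3)) (k j M K : ℕ) (R : ℝ) : Set Sy :=
  {x | Good (allp x) ∧ (∀ p ∈ allp x, (p i ≤ c ↔ σ)) ∧ (∀ s ∈ x.2, s ≠ []) ∧ x.2.length ≤ k ∧
    sjn x ≤ j ∧ bx (allp x) ≤ M ∧ hch i c I x ≤ M ∧
    cnt (allp x) i c + cnt (allp x) i (c + 1) ≤ K ∧ (hch i c I x : ℝ) ≤ (allp x).length + R}

/-- Row HALF: mirror doubling of a one-sided system. -/
def HalfStmt : Prop :=
  ∀ (θ : Par) (i : Fin 3) (c : ℤ) (σ : Prop) (I : Finset (Fin 3)) (k j M K : ℕ) (R G : ℝ),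
    i ≠ 2 → c.natAbs ≤ M → 0 ≤ R → 1 ≤ G →
    Bd (Sys I k (2 * j + k + 1) (5 * M + 3) (2 * R + 2)) (es θ I) G →
    Bd (Half i c σ I k j M K R) (fun x => ew θ (allp x))
      ((2 * (2 * M + 1) ^ 6 + 1 : ℕ) ^ (k + 1) * (Real.exp (kap θ * (2 * R + 2 + K)) * G))

/-- Row DBL. -/
def DblStmt : Prop :=
  ∀ (θ : Par) (i : Fin 3) (I I' : Finset (Fin 3)) (C : ℝ), i ≠ 2 → (i ∈ I' → i ∈ I) → 0 ≤ C →
    QS θ I' C → ∃ C' : ℝ, 0 ≤ C' ∧ Q θ I C'

/-- Hairpins: paths from `a` to `b` that stay to the right of `a`. -/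
def Hp (a b : P) (n : ℕ) : Set (List P) :=
  {w | Good w ∧ w.length = n ∧ w ≠ [] ∧ hd w = a ∧ lt w = b ∧ w.IsChain Adj ∧ ∀ p ∈ w, a 0 ≤ p 0}

/-- Lists that visit the surface. -/
def Vis : Set (List P) := {w | ∃ p ∈ w, p 2 = 0}

/-- Ladders: two disjoint paths between the leftmost and the rightmost layer. -/
def Ld (l1 l2 r1 r2 : P) (m n : ℕ) : Set (List P × List P) :=
  {x | Good (x.1 ++ x.2) ∧ x.1.length = m ∧ (x.1 ++ x.2).length = n ∧ x.1 ≠ [] ∧ x.2 ≠ [] ∧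
    x.1.IsChain Adj ∧ x.2.IsChain Adj ∧ hd x.1 = l1 ∧ lt x.1 = r1 ∧ hd x.2 = r2 ∧ lt x.2 = l2 ∧
    (∀ p ∈ x.1 ++ x.2, l1 0 ≤ p 0 ∧ p 0 ≤ r1 0) ∧ x.1 ++ x.2 ∈ Vis}

/-- Row LADA: attaching, mirroring, translating, and the straight hairpins. -/
def LadAStmt : Prop :=
  ∀ θ : Par,
    (∀ (l1 l2 r1 r2 : P) (m n n' : ℕ) (G G' : ℝ), 0 ≤ G → 0 ≤ G' → r1 0 = r2 0 →
      Lb (Ld l1 l2 r1 r2 m n) (fun x => ew θ (x.1 ++ x.2)) G →
      Lb (Hp (r1 + ev 0 + ev 0) (r2 + ev 0 + ev 0) n') (ew θ) G' →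
      Lb (Hp l1 l2 (n + n' + 2) ∩ Vis) (ew θ) (G * G' * Real.exp (-(2 * kap θ)))) ∧
    (∀ (l1 l2 r1 r2 : P) (m n : ℕ) (G : ℝ) (c : ℤ),
      Lb (Ld l1 l2 r1 r2 m n) (fun x => ew θ (x.1 ++ x.2)) G →
      Lb (Ld (mir 0 c r1) (mir 0 c r2) (mir 0 c l1) (mir 0 c l2) m n)
        (fun x => ew θ (x.1 ++ x.2)) G) ∧
    (∀ (a b t : P) (n : ℕ) (G : ℝ), t 2 = 0 → Lb (Hp a b n) (ew θ) G →
      Lb (Hp (a + t) (b + t) n) (ew θ) G) ∧
    (∀ (a b : P) (m : ℕ), Adj a b → a 0 = b 0 → 0 ≤ a 2 → 0 ≤ b 2 → 1 ≤ m →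
      Lb (Hp a b (2 * m)) (ew θ) (Real.exp (-(kap θ * (2 * m))))) ∧
    (∀ (a b : P) (n : ℕ) (G : ℝ), Adj a b → 0 ≤ G → Lb (Hp a b n ∩ Vis) (ew θ) G →
      Lb (Tour 0 n) (ew θ) (G / (n + 1)))

/-- Row POP: a popular class of ladders. -/
def PopStmt : Prop :=
  ∀ (a b l l' G : ℝ), l' < l → ¬ Dom ⟨a, b, l⟩ → ∃ (l1 l2 r1 r2 : P) (m n : ℕ),
    Adj l1 l2 ∧ Adj r1 r2 ∧ l1 0 = l2 0 ∧ r1 0 = r2 0 ∧ 0 ≤ l1 2 ∧ 0 ≤ l2 2 ∧
    Lb (Ld l1 l2 r1 r2 m n) (fun x => ew ⟨a, b, l'⟩ (x.1 ++ x.2)) G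

/-- Row LAD. -/
def LadStmt : Prop :=
  ∀ a b l l' : ℝ, l' < l → ¬ Dom ⟨a, b, l⟩ →
    ∀ᶠ m : ℕ in atTop, Lb (Tour 0 (2 * m)) (ew ⟨a, b, l'⟩) 1

/-- Row CONV: contacts in terms of adjacent pairs; an edge set has few tours. -/
def ConvStmt : Prop :=
  (∀ w : List P, w.Nodup → w.IsChain Adj →
    2 * (contacts w.toFinset (edges w) + (w.length - 1)) = A2 w.toFinset) ∧
  (∀ w : List P, 3 ≤ w.length → w.Nodup → (w ++ w.take 1).IsChain Adj →
    verts (edges (w ++ w.take 1)) = w.toFinset ∧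
      2 * (contacts w.toFinset (edges (w ++ w.take 1)) + w.length) = A2 w.toFinset) ∧
  ∀ n : ℕ, Fan (fun (E : Finset (Sym2 P)) (w : List P) => w.length = n ∧ 3 ≤ n ∧ w.Nodup ∧
    E = edges (w ++ w.take 1)) (n ^ 2)

/-- Row WALK: the two bounds for walks. -/
def WalkStmt : Prop :=
  ∀ a b l : ℝ,
    (∀ C : ℝ, Q ⟨a, b, l⟩ ∅ C → ∀ δ : ℝ, 0 < δ →
      ∀ᶠ n : ℕ in atTop, Zw n a b ≤ Real.exp ((l - b + δ) * n)) ∧
    ((∀ᶠ m : ℕ in atTop, Lb (Tour 0 (2 * m)) (ew ⟨a, b, l⟩) 1) → ∀ δ : ℝ, 0 < δ →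
      ∀ᶠ n : ℕ in atTop, Real.exp ((l - b - δ) * n) ≤ Zw n a b) ∧
    ∀ n : ℕ, Real.exp (-(|a| + 7 * |b|) * (n + 1)) ≤ Zw n a b

/-- Row POLY: the two bounds for polygons. -/
def PolyStmt : Prop :=
  ∀ a b l : ℝ,
    (DomAll ⟨a, b, l⟩ → ∀ δ : ℝ, 0 < δ →
      ∀ᶠ n : ℕ in atTop, Zp n a b ≤ Real.exp ((l - b + δ) * n)) ∧
    ((∀ᶠ m : ℕ in atTop, Lb (Tour 0 (2 * m)) (ew ⟨a, b, l⟩) 1) → ∀ δ : ℝ, 0 < δ →
      ∀ᶠ m : ℕ in atTop, Real.exp ((l - b - δ) * (2 * m : ℕ)) ≤ Zp (2 * m) a b)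

/-- The theorem. -/
def MainStmt : Prop :=
  ∀ α β : ℝ, ∃ F : ℝ, Tendsto (fun n : ℕ => Real.log (Zw n α β) / n) atTop (𝓝 F) ∧
    Tendsto (fun m : ℕ => Real.log (Zp (2 * m) α β) / (2 * m : ℕ)) atTop (𝓝 F)

/-! ### Shared lemmas -/

theorem ew_pos (θ : Par) (w : List P) : 0 < ew θ w := Real.exp_pos _

theorem ep_pos (θ : Par) (I : Finset (Fin 3)) (w : List P) : 0 < ep θ I w := Real.exp_pos _

theorem es_pos (θ : Par) (I : Finset (Fin 3)) (x : Sy) : 0 < es θ I x := Real.exp_pos _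

/-- There are at most `6 ^ n` paths with `n + 1` sites and a given first site. -/
theorem card_chain (n : ℕ) (p : P) (s : Finset (List P))
    (hs : ∀ w ∈ s, w.length = n + 1 ∧ hd w = p ∧ w.IsChain Adj) : s.card ≤ 6 ^ n := by
  induction n generalizing p s with
  | zero =>
    refine Finset.card_le_one.2 fun a ha b hb => ?_
    obtain ⟨x, rfl⟩ := List.length_eq_one_iff.1 (hs a ha).1
    obtain ⟨y, rfl⟩ := List.length_eq_one_iff.1 (hs b hb).1
    exact congrArg (fun z => [z]) ((hs _ ha).2.1.trans (hs _ hb).2.1.symm)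
  | succ n ih =>
    have h1 : Fan (fun (q : P) (w : List P) => w.length = n + 1 ∧ hd w = q ∧ w.IsChain Adj)
        (6 ^ n) := fun q t ht => ih q t ht
    refine (((fan_adj.comp h1).comp (fan_fun fun l => p :: l)) p s fun w hw => ?_).trans
      (by rw [pow_succ]; omega)
    obtain ⟨h2, h3, h4⟩ := hs w hw
    match w, h2, h3, h4 with
    | x :: y :: l, h2, h3, h4 =>
      rw [List.isChain_cons_cons] at h4
      obtain rfl : x = p := h3
      exact ⟨y :: l, ⟨y, h4.1, by simpa using h2, rfl, h4.2⟩, rfl⟩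

/-- The crude bound. -/
theorem bd_crude (θ : Par) (p : P) (n : ℕ) :
    Bd (Tour p n) (ew θ) (6 ^ n * Real.exp (kap θ * n)) := fun s hs => by
  have h1 : ∀ w ∈ s, ew θ w ≤ Real.exp (kap θ * n) := fun w hw => by
    obtain ⟨h1, h2, -⟩ := hs hw
    have := (abs_le.1 (abs_phi_le θ w.toFinset)).2
    rw [h1.card, h2] at this
    exact Real.exp_le_exp.2 this
  refine (Finset.sum_le_card_nsmul _ _ _ h1).trans ?_
  rw [nsmul_eq_mul]
  refine mul_le_mul_of_nonneg_right ?_ (Real.exp_pos _).le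
  cases n with
  | zero =>
    have : s.card ≤ 1 := Finset.card_le_one.2 fun a ha b hb => by
      rw [List.eq_nil_of_length_eq_zero (hs ha).2.1, List.eq_nil_of_length_eq_zero (hs hb).2.1]
    exact_mod_cast this
  | succ n =>
    have := card_chain n p s fun w hw => ⟨(hs hw).2.1, (hs hw).2.2.1, (hs hw).2.2.2.1⟩
    have h2 : s.card ≤ 6 ^ (n + 1) := this.trans (Nat.pow_le_pow_right (by omega) (by omega))
    exact_mod_cast h2

/-- An inner site in an extreme layer has an edge in that layer. -/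
theorem ext_inner {w : List P} (hn : w.Nodup) (hc : w.IsChain Adj) {p : P} (hp : p ∈ w)
    (h1 : p ≠ hd w) (h2 : p ≠ lt w) (i : Fin 3)
    (he : (∀ q ∈ w, q i ≤ p i) ∨ ∀ q ∈ w, p i ≤ q i) :
    ∃ u v, w = u ++ v ∧ u ≠ [] ∧ v ≠ [] ∧ lt u i = p i ∧ hd v i = p i := by
  obtain ⟨A, B, rfl⟩ := List.append_of_mem hp
  obtain ⟨A', x, rfl⟩ := (List.eq_nil_or_concat' A).resolve_left fun h => h1 (by simp [h])
  cases B with
  | nil => exact absurd (lt_concat _ _).symm h2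
  | cons y B' =>
    have h3 : Adj x p ∧ Adj p y := by
      rw [List.append_assoc, List.singleton_append, List.isChain_append_cons_cons,
        List.isChain_cons_cons] at hc
      exact ⟨hc.2.1, hc.2.2.1⟩
    have h4 : x ≠ y := by
      rintro rfl
      exact (List.disjoint_of_nodup_append hn) (a := x) (by simp) (by simp)
    by_cases hx : p i = x i
    · exact ⟨A' ++ [x], p :: y :: B', rfl, by simp, by simp, by simp [hx], rfl⟩
    by_cases hy : p i = y i
    · exact ⟨A' ++ [x] ++ [p], y :: B', by simp, by simp, by simp, by rw [lt_concat], hy.symm⟩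
    exfalso
    have h5 := h3.1.symm.of_ne hx
    have h6 := h3.2.of_ne hy
    have h7 := he.imp (fun h => And.intro (h x (by simp)) (h y (by simp)))
      fun h => And.intro (h x (by simp)) (h y (by simp))
    rcases h5 with h5 | h5 <;> rcases h6 with h6 | h6
    · exact h4 (h5.trans h6.symm)
    · rw [h5, h6] at h7
      simp only [Pi.add_apply, Pi.sub_apply, ev_same] at h7
      omega
    · rw [h5, h6] at h7
      simp only [Pi.add_apply, Pi.sub_apply, ev_same] at h7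
      omega
    · exact h4 (h5.trans h6.symm)

/-- Rotating a tour. -/
theorem Tour.rot {p : P} {n : ℕ} {u v : List P} (h : u ++ v ∈ Tour p n) :
    v ++ u ∈ Tour (hd (v ++ u)) n := by
  by_cases hu : u = []
  · subst hu
    obtain ⟨h1, h2, -, h4⟩ := h
    simp only [List.nil_append, List.append_nil] at *
    exact ⟨h1, h2, rfl, h4⟩
  by_cases hv : v = []
  · subst hv
    obtain ⟨h1, h2, -, h4⟩ := h
    simp only [List.nil_append, List.append_nil] at *
    exact ⟨h1, h2, rfl, h4⟩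
  obtain ⟨h1, h2, -, h4, h5⟩ := h
  rw [← jn_eq_zero, jn, cs_append _ hu hv] at h4
  rw [lt_append _ hv, hd_append hu] at h5
  refine ⟨h1.perm List.perm_append_comm, by simpa [add_comm] using h2, rfl, ?_, ?_⟩
  · rw [← jn_eq_zero, jn, cs_append _ hv hu, jmp_adj h5]
    omega
  · rw [lt_append _ hu, hd_append hv]
    by_contra h6
    rw [jmp_not h6] at h4
    omega

/-- A tour of length at least three can be rotated so that its closing edge lies in the lowest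
layer in direction `i`. -/
theorem ext_edge {p : P} {n : ℕ} {w : List P} (h : w ∈ Tour p n) (hn : 3 ≤ n) (i : Fin 3) :
    ∃ u v, w = u ++ v ∧ hd (v ++ u) i = lt (v ++ u) i ∧ ∀ q ∈ w, hd (v ++ u) i ≤ q i := by
  have hw : w ≠ [] := fun e => by
    have := h.2.1
    rw [e] at this
    simp at this
    omega
  obtain ⟨x, hx, hmin⟩ := Finset.exists_min_image w.toFinset (fun q => q i)
    ⟨hd w, List.mem_toFinset.2 (hd_mem hw)⟩
  simp only [List.mem_toFinset] at hx hmin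
  have key : ∀ A B : List P, w = A ++ B → x ≠ hd (B ++ A) → x ≠ lt (B ++ A) →
      ∃ u v, w = u ++ v ∧ hd (v ++ u) i = lt (v ++ u) i ∧ ∀ q ∈ w, hd (v ++ u) i ≤ q i := by
    rintro A B rfl h1 h2
    have h3 := Tour.rot h
    have h4 : ∀ q, q ∈ B ++ A ↔ q ∈ A ++ B := fun q => List.perm_append_comm.mem_iff
    obtain ⟨u, v, e, hu, hv, h5, h6⟩ := ext_inner h3.1.1 h3.2.2.2.1 ((h4 x).2 hx) h1 h2 i
      (Or.inr fun q hq => hmin q ((h4 q).1 hq))
    have h7 : hd (v ++ u) i = lt (v ++ u) i ∧ ∀ q ∈ A ++ B, hd (v ++ u) i ≤ q i := by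
      rw [hd_append hv, lt_append _ hu, h5, h6]
      exact ⟨rfl, hmin⟩
    rcases List.append_eq_append_iff.1 e with ⟨t, rfl, rfl⟩ | ⟨t, rfl, rfl⟩
    · exact ⟨t, v ++ B, by simp, by simpa using h7⟩
    · exact ⟨A ++ u, t, by simp, by simpa using h7⟩
  by_cases h1 : x = hd w
  · obtain ⟨l, y, rfl⟩ := (List.eq_nil_or_concat' w).resolve_left hw
    have h2 := h.2.1
    match l, h, h1, hx, h2, key with
    | a :: b :: l, h, h1, hx, h2, key =>
      have h3 := h.1.1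
      obtain rfl : x = a := h1
      refine key (x :: b :: l) [y] rfl ?_ ?_
      · rintro rfl
        simp at h3
      · intro e
        have h4 : lt (b :: l) ∈ b :: l := lt_mem (by simp)
        have h5 : x = lt (b :: l) := by simpa using e
        rw [← h5] at h4
        simp only [List.cons_append, List.nodup_cons, List.mem_cons, List.mem_append] at h3 h4
        tauto
    | [a], h, h1, hx, h2, key => simp at h2; omega
    | [], h, h1, hx, h2, key => simp at h2; omega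
  by_cases h2 : x = lt w
  · have h3 := h.2.1
    match w, h, h1, h2, hx, h3, key with
    | a :: b :: c :: l, h, h1, h2, hx, h3, key =>
      have h4 := h.1.1
      have h5 : x ∈ c :: l := by
        rw [h2]
        simpa using lt_mem (w := c :: l) (by simp)
      refine key [a] (b :: c :: l) rfl ?_ ?_
      · rintro rfl
        simp only [List.nodup_cons] at h4
        tauto
      · rw [lt_concat]
        exact h1
    | [a, b], h, h1, h2, hx, h3, key => simp at h3; omega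
    | [a], h, h1, h2, hx, h3, key => simp at h3; omega
    | [], h, h1, h2, hx, h3, key => simp at hx
  · exact key [] w rfl (by simpa using h1) (by simpa using h2)

end Pool.Agent.MP_7b45f6_mp.H32
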