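import Pool.Agent.MP_7b45f6_mp.H32.Defs

/-!
# Bounds for sums over classes, and relations of bounded fan-out
-/

set_option autoImplicit false

namespace Pool.Agent.MP_7b45f6_mp.H32

open Classical

section

variable {A B C : Type}

/-- Every finite partial sum of `f` over `X` is at most `G`. -/
def Bd (X : Set A) (f : A → ℝ) (G : ℝ) : Prop := ∀ s : Finset A, ↑s ⊆ X → ∑ x ∈ s, f x ≤ G

/-- Some finite partial sum of `f` over `X` is at least `G`. -/
def Lb (X : Set A) (f : A → ℝ) (G : ℝ) : Prop := ∃ s : Finset A, ↑s ⊆ X ∧ G ≤ ∑ x ∈ s, f x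

/-- Each `y` is related to at most `M` elements `x`. -/
def Fan (ρ : B → A → Prop) (M : ℕ) : Prop :=
  ∀ (y : B) (s : Finset A), (∀ x ∈ s, ρ y x) → s.card ≤ M

theorem Bd.nonneg {X : Set A} {f : A → ℝ} {G : ℝ} (h : Bd X f G) : 0 ≤ G := by
  simpa using h ∅ (by simp)

theorem not_bd {X : Set A} {f : A → ℝ} {G : ℝ} (h : ¬ Bd X f G) : Lb X f G := by
  unfold Bd at h
  push Not at h
  obtain ⟨s, hs, h⟩ := h
  exact ⟨s, hs, h.le⟩

theorem Lb.le {X : Set A} {f : A → ℝ} {G G' : ℝ} (h : Lb X f G) (h' : Bd X f G') : G ≤ G' := by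
  obtain ⟨s, hs, h⟩ := h
  exact h.trans (h' s hs)

theorem transfer {Y : Set B} {f : A → ℝ} {g : B → ℝ} {ρ : B → A → Prop} {M : ℕ} {c : ℝ}
    (hρ : Fan ρ M) (hc : 0 ≤ c) (hg : ∀ y, 0 ≤ g y) (s : Finset A)
    (h : ∀ x ∈ s, ∃ y ∈ Y, ρ y x ∧ f x ≤ c * g y) :
    ∃ t : Finset B, ↑t ⊆ Y ∧ ∑ x ∈ s, f x ≤ c * M * ∑ y ∈ t, g y := by
  choose F hF using h
  rcases s.eq_empty_or_nonempty with rfl | ⟨x0, hx0⟩
  · exact ⟨∅, by simp, by simp⟩
  let F' : A → B := fun x => if hx : x ∈ s then F x hx else F x0 hx0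
  have hF' : ∀ x ∈ s, F' x ∈ Y ∧ ρ (F' x) x ∧ f x ≤ c * g (F' x) := fun x hx => by
    simp only [F', dif_pos hx]
    exact hF x hx
  refine ⟨s.image F', fun y hy => ?_, ?_⟩
  · obtain ⟨x, hx, rfl⟩ := Finset.mem_image.1 (Finset.mem_coe.1 hy)
    exact (hF' x hx).1
  · rw [← Finset.sum_fiberwise_of_maps_to (g := F') (t := s.image F')
      (fun x hx => Finset.mem_image_of_mem _ hx), Finset.mul_sum]
    refine Finset.sum_le_sum fun y _ => ?_
    have h1 : ∀ x ∈ s.filter (fun x => F' x = y), f x ≤ c * g y := fun x hx => by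
      obtain ⟨h1, h2⟩ := Finset.mem_filter.1 hx
      rw [← h2]
      exact (hF' x h1).2.2
    have h2 : (s.filter fun x => F' x = y).card ≤ M := hρ y _ fun x hx => by
      obtain ⟨h1, h2⟩ := Finset.mem_filter.1 hx
      rw [← h2]
      exact (hF' x h1).2.1
    refine (Finset.sum_le_card_nsmul _ _ _ h1).trans ?_
    rw [nsmul_eq_mul]
    have h3 : ((s.filter fun x => F' x = y).card : ℝ) ≤ M := by exact_mod_cast h2
    have h4 : 0 ≤ c * g y := mul_nonneg hc (hg y)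
    nlinarith

theorem Bd.transfer {X : Set A} {Y : Set B} {f : A → ℝ} {g : B → ℝ} {ρ : B → A → Prop} {M : ℕ}
    {c G : ℝ} (hY : Bd Y g G) (hρ : Fan ρ M) (hc : 0 ≤ c) (hg : ∀ y, 0 ≤ g y)
    (h : ∀ x ∈ X, ∃ y ∈ Y, ρ y x ∧ f x ≤ c * g y) : Bd X f (c * M * G) := fun s hs => by
  obtain ⟨t, ht, h1⟩ := H32.transfer hρ hc hg s fun x hx => h x (hs hx)
  exact h1.trans (mul_le_mul_of_nonneg_left (hY t ht) (by positivity))

theorem Lb.transfer {X : Set A} {Y : Set B} {f : A → ℝ} {g : B → ℝ} {ρ : B → A → Prop} {M : ℕ}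
    {c G : ℝ} (hX : Lb X f G) (hρ : Fan ρ M) (hc : 0 < c) (hM : 0 < M) (hg : ∀ y, 0 ≤ g y)
    (h : ∀ x ∈ X, ∃ y ∈ Y, ρ y x ∧ f x ≤ c * g y) : Lb Y g (G / (c * M)) := by
  obtain ⟨s, hs, h0⟩ := hX
  obtain ⟨t, ht, h1⟩ := H32.transfer hρ hc.le hg s fun x hx => h x (hs hx)
  refine ⟨t, ht, ?_⟩
  rw [div_le_iff₀ (by positivity)]
  linarith

theorem Bd.mono {X X' : Set A} {f f' : A → ℝ} {G G' : ℝ} (h : Bd X f G) (hX : X' ⊆ X)
    (hf : ∀ x ∈ X', f' x ≤ f x) (hG : G ≤ G') : Bd X' f' G' := fun s hs =>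
  ((Finset.sum_le_sum fun x hx => hf x (hs hx)).trans (h s (hs.trans hX))).trans hG

theorem Lb.mono {X X' : Set A} {f f' : A → ℝ} {G G' : ℝ} (h : Lb X f G) (hX : X ⊆ X')
    (hf : ∀ x ∈ X, f x ≤ f' x) (hG : G' ≤ G) : Lb X' f' G' := by
  obtain ⟨s, hs, h⟩ := h
  exact ⟨s, hs.trans hX, hG.trans (h.trans (Finset.sum_le_sum fun x hx => hf x (hs hx)))⟩

theorem Bd.const_mul {X : Set A} {f : A → ℝ} {G c : ℝ} (h : Bd X f G) (hc : 0 ≤ c) :
    Bd X (fun x => c * f x) (c * G) := fun s hs => by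
  rw [← Finset.mul_sum]
  exact mul_le_mul_of_nonneg_left (h s hs) hc

theorem Lb.const_mul {X : Set A} {f : A → ℝ} {G c : ℝ} (h : Lb X f G) (hc : 0 ≤ c) :
    Lb X (fun x => c * f x) (c * G) := by
  obtain ⟨s, hs, h⟩ := h
  refine ⟨s, hs, ?_⟩
  rw [← Finset.mul_sum]
  exact mul_le_mul_of_nonneg_left h hc

theorem Bd.union {X X' : Set A} {f : A → ℝ} {G G' : ℝ} (h : Bd X f G) (h' : Bd X' f G') :
    Bd (X ∪ X') f (G + G') := fun s hs => by
  rw [← Finset.sum_filter_add_sum_filter_not s (· ∈ X)]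
  refine add_le_add (h _ fun x hx => (Finset.mem_filter.1 hx).2) (h' _ fun x hx => ?_)
  obtain ⟨h1, h2⟩ := Finset.mem_filter.1 hx
  exact (hs h1).resolve_left h2

theorem bd_singleton (a : A) {f : A → ℝ} (h : 0 ≤ f a) : Bd {a} f (f a) := fun s hs => by
  rcases Finset.subset_singleton_iff.1 (show s ⊆ {a} from fun x hx => Finset.mem_singleton.2 (hs hx)) with rfl | rfl
  · simpa using h
  · simp

theorem lb_of_mem {X : Set A} {a : A} (f : A → ℝ) (h : a ∈ X) : Lb X f (f a) :=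
  ⟨{a}, by simpa using h, by simp⟩

theorem Bd.prod {X : Set A} {Y : Set B} {f : A → ℝ} {g : B → ℝ} {G G' : ℝ} (h : Bd X f G)
    (h' : Bd Y g G') (hf : ∀ x, 0 ≤ f x) (hg : ∀ y, 0 ≤ g y) :
    Bd (X ×ˢ Y) (fun z => f z.1 * g z.2) (G * G') := fun s hs => by
  have h1 : s ⊆ s.image Prod.fst ×ˢ s.image Prod.snd := Finset.subset_product
  refine (Finset.sum_le_sum_of_subset_of_nonneg h1 fun z _ _ => mul_nonneg (hf _) (hg _)).trans ?_
  rw [Finset.sum_product, ← Finset.sum_mul_sum]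
  refine mul_le_mul (h _ fun x hx => ?_) (h' _ fun y hy => ?_)
    (Finset.sum_nonneg fun y _ => hg y) h.nonneg
  · obtain ⟨z, hz, rfl⟩ := Finset.mem_image.1 (Finset.mem_coe.1 hx)
    exact (hs hz).1
  · obtain ⟨z, hz, rfl⟩ := Finset.mem_image.1 (Finset.mem_coe.1 hy)
    exact (hs hz).2

theorem Lb.prod {X : Set A} {Y : Set B} {f : A → ℝ} {g : B → ℝ} {G G' : ℝ} (h : Lb X f G)
    (h' : Lb Y g G') (hG : 0 ≤ G) (hG' : 0 ≤ G') :
    Lb (X ×ˢ Y) (fun z => f z.1 * g z.2) (G * G') := by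
  obtain ⟨s, hs, h⟩ := h
  obtain ⟨t, ht, h'⟩ := h'
  refine ⟨s ×ˢ t, by rw [Finset.coe_product]; exact Set.prod_mono hs ht, ?_⟩
  rw [Finset.sum_product, ← Finset.sum_mul_sum]
  exact mul_le_mul h h' hG' (hG.trans h)

/-- The Cauchy-Schwarz step. -/
theorem Bd.of_sq {X : Set A} {f : A → ℝ} {G : ℝ} (h : Bd (X ×ˢ X) (fun z => f z.1 * f z.2) G)
    (hG : 1 ≤ G) : Bd X f G := fun s hs => by
  have h1 := h (s ×ˢ s) (by rw [Finset.coe_product]; exact Set.prod_mono hs hs)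
  rw [Finset.sum_product, ← Finset.sum_mul_sum] at h1
  by_contra h2
  push Not at h2
  nlinarith

/-- Splitting into at most `T` classes. -/
theorem Bd.classify {X : Set A} {f : A → ℝ} {G : ℝ} {T : ℕ} (θ : A → B) (hG : 0 ≤ G)
    (hT : ∀ t : Finset B, (∀ b ∈ t, ∃ x ∈ X, θ x = b) → t.card ≤ T)
    (h : ∀ b, Bd {x | x ∈ X ∧ θ x = b} f G) : Bd X f (T * G) := fun s hs => by
  rw [← Finset.sum_fiberwise_of_maps_to (g := θ) (t := s.image θ)
    (fun x hx => Finset.mem_image_of_mem _ hx)]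
  have h1 : ∀ b ∈ s.image θ, ∑ x ∈ s.filter (fun x => θ x = b), f x ≤ G := fun b _ =>
    h b _ fun x hx => ⟨hs (Finset.mem_filter.1 hx).1, (Finset.mem_filter.1 hx).2⟩
  refine (Finset.sum_le_card_nsmul _ _ _ h1).trans ?_
  rw [nsmul_eq_mul]
  refine mul_le_mul_of_nonneg_right (Nat.cast_le.2 (hT _ fun b hb => ?_)) hG
  obtain ⟨x, hx, rfl⟩ := Finset.mem_image.1 hb
  exact ⟨x, hs hx, rfl⟩

/-- The most popular class. -/
theorem Lb.classify {X : Set A} {f : A → ℝ} {G : ℝ} {T : ℕ} (θ : A → B) (hG : 0 < G)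
    (hT : ∀ t : Finset B, (∀ b ∈ t, ∃ x ∈ X, θ x = b) → t.card ≤ T)
    (h : Lb X f ((T + 1) * G)) : ∃ b, Lb {x | x ∈ X ∧ θ x = b} f G := by
  by_contra h1
  push Not at h1
  have h2 := h.le (Bd.classify θ hG.le hT fun b => by
    by_contra h3
    exact h1 b (not_bd h3))
  nlinarith

theorem Fan.mono {ρ ρ' : B → A → Prop} {M M' : ℕ} (h : Fan ρ M) (hρ : ∀ y x, ρ' y x → ρ y x)
    (hM : M ≤ M') : Fan ρ' M' := fun y s hs => (h y s fun x hx => hρ y x (hs x hx)).trans hM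

/-- Decoding from a finite set of codes. -/
theorem fan_dec (Θ : Finset C) (dec : C → B → A) :
    Fan (fun y x => ∃ θ ∈ Θ, x = dec θ y) Θ.card := fun y s hs => by
  refine le_trans (Finset.card_le_card (t := Θ.image fun θ => dec θ y) fun x hx => ?_)
    Finset.card_image_le
  obtain ⟨θ, h1, rfl⟩ := hs x hx
  exact Finset.mem_image_of_mem _ h1

/-- Injective encodings that depend on a finite set of codes. -/
theorem fan_enc (Θ : Finset C) (ρ : C → B → A → Prop)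
    (h : ∀ θ ∈ Θ, ∀ y x x', ρ θ y x → ρ θ y x' → x = x') :
    Fan (fun y x => ∃ θ ∈ Θ, ρ θ y x) Θ.card := fun y s hs => by
  choose F hF using hs
  rcases s.eq_empty_or_nonempty with rfl | ⟨x0, hx0⟩
  · simp
  refine Finset.card_le_card_of_injOn (fun x => if hx : x ∈ s then F x hx else F x0 hx0)
    (fun x hx => ?_) fun x hx x' hx' hxx => ?_
  · have hx' : x ∈ s := hx
    simp only [dif_pos hx']
    exact (hF x hx').1
  · have h1 : x ∈ s := hx
    have h2 : x' ∈ s := hx'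
    simp only [dif_pos h1, dif_pos h2] at hxx
    exact h _ (hF x h1).1 y x x' (hF x h1).2 (hxx ▸ (hF x' h2).2)

theorem fan_fun (dec : B → A) : Fan (fun y x => x = dec y) 1 := fun _ _ hs =>
  Finset.card_le_one.2 fun a ha b hb => (hs a ha).trans (hs b hb).symm

theorem Fan.or {ρ ρ' : B → A → Prop} {M M' : ℕ} (h : Fan ρ M) (h' : Fan ρ' M') :
    Fan (fun y x => ρ y x ∨ ρ' y x) (M + M') := fun y s hs => by
  rw [← Finset.card_filter_add_card_filter_not (s := s) (ρ y)]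
  refine add_le_add (h y _ fun x hx => (Finset.mem_filter.1 hx).2) (h' y _ fun x hx => ?_)
  obtain ⟨h1, h2⟩ := Finset.mem_filter.1 hx
  exact (hs x h1).resolve_left h2

theorem Fan.comp {ρ : C → B → Prop} {ρ' : B → A → Prop} {M M' : ℕ} (h : Fan ρ M)
    (h' : Fan ρ' M') : Fan (fun z x => ∃ y, ρ z y ∧ ρ' y x) (M * M') := fun z s hs => by
  obtain ⟨t, ht, h1⟩ := transfer (Y := {y | ρ z y}) (f := fun _ => 1) (g := fun _ => 1) (c := 1)
    h' zero_le_one (fun _ => zero_le_one) s fun x hx => by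
      obtain ⟨y, h1, h2⟩ := hs x hx
      exact ⟨y, h1, h2, by simp⟩
  have h2 : t.card ≤ M := h z t fun y hy => ht hy
  simp only [Finset.sum_const, nsmul_eq_mul, mul_one, one_mul] at h1
  have h3 : s.card ≤ M' * t.card := by exact_mod_cast h1
  exact h3.trans (by rw [mul_comm M]; exact Nat.mul_le_mul_left _ h2)

/-- Lists of length at most `k` over a finite alphabet. -/
theorem card_lists (Θ : Finset A) (k : ℕ) (t : Finset (List A))
    (ht : ∀ l ∈ t, l.length ≤ k ∧ ∀ a ∈ l, a ∈ Θ) : t.card ≤ (Θ.card + 1) ^ k := by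
  induction k generalizing t with
  | zero =>
    refine Finset.card_le_one.2 fun a ha b hb => ?_
    rw [List.eq_nil_of_length_eq_zero (Nat.le_zero.1 (ht a ha).1),
      List.eq_nil_of_length_eq_zero (Nat.le_zero.1 (ht b hb).1)]
  | succ k ih =>
    have h1 : Fan (fun (_ : Unit) (l : List A) => l.length ≤ k ∧ ∀ a ∈ l, a ∈ Θ)
        ((Θ.card + 1) ^ k) := fun _ s hs => ih s hs
    have h2 := (h1.comp (fan_dec Θ fun a l => a :: l)).or (fan_fun fun _ : Unit => ([] : List A))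
    refine (h2 () t fun l hl => ?_).trans ?_
    · obtain ⟨h3, h4⟩ := ht l hl
      cases l with
      | nil => exact Or.inr rfl
      | cons a l =>
        exact Or.inl ⟨l, ⟨by simpa using h3, fun b hb => h4 b (by simp [hb])⟩, a,
          h4 a (by simp), rfl⟩
    · have h5 : 1 ≤ (Θ.card + 1) ^ k := Nat.one_le_pow _ _ (by omega)
      rw [pow_succ, mul_add, mul_one]
      omega

end

/-- Polynomials are eventually below any exponential. -/
theorem ev_poly (C : ℝ) (a c : ℕ) {δ : ℝ} (hδ : 0 < δ) :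
    ∀ᶠ n : ℕ in Filter.atTop, C * ((a * n + a : ℕ) : ℝ) ^ c ≤ Real.exp (δ * n) := by
  have h1 := (isLittleO_pow_exp_pos_mul_atTop c hδ).comp_tendsto
    (tendsto_natCast_atTop_atTop (R := ℝ))
  have h2 : 0 < 1 / (|C| * (2 * a) ^ c + 1) := by positivity
  filter_upwards [h1.bound h2, Filter.eventually_ge_atTop 1] with n hn h3
  simp only [Function.comp, Real.norm_eq_abs, Real.abs_exp] at hn
  rw [abs_of_nonneg (by positivity)] at hn
  have h4 : (1 : ℝ) ≤ n := by exact_mod_cast h3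
  have h5 : ((a * n + a : ℕ) : ℝ) ^ c ≤ (2 * a) ^ c * (n : ℝ) ^ c := by
    rw [← mul_pow]
    refine pow_le_pow_left₀ (by positivity) ?_ _
    push_cast
    have : (0 : ℝ) ≤ a := by positivity
    nlinarith
  have h6 : C * ((a * n + a : ℕ) : ℝ) ^ c ≤ |C| * ((2 * a) ^ c * (n : ℝ) ^ c) :=
    mul_le_mul (le_abs_self _) h5 (by positivity) (abs_nonneg _)
  rw [one_div, ← div_eq_inv_mul, le_div_iff₀ (by positivity)] at hn
  have h7 : (0 : ℝ) ≤ (n : ℝ) ^ c := by positivity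
  nlinarith

end Pool.Agent.MP_7b45f6_mp.H32
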