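import Pool.Agent.MP_7b45f6_mp.H32.Conn

/-!
# Connecting the last site of a list to free lattice lines
-/

set_option autoImplicit false

namespace Pool.Agent.MP_7b45f6_mp.H32

open Classical

theorem slab {w : List P} {p r : P} {d : Fin 3} {g j m : ℕ} {J : Fin 3 → Prop} (hg : Good w)
    (hw : w ≠ []) (hj : jn w ≤ j) (hp : 0 ≤ p 2) (hc : cnt w d (p d) ≤ g) (hon : On d p (lt w))
    (hl : lt w d = p d ∨ lt w d = p d + 1) (hnb : ¬ Nb w p (p + ev d)) (hP : Prot w r m J)
    (t : ℕ) : ∃ w' r', Mv t (t * (3 * g + j + t + 3)) w w' ∧ w' ≠ [] ∧ Prot w' r' (2 ^ t * m) J ∧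
      On d p (lt w') ∧ (lt w' d = p d ∨ lt w' d = p d + t + 1) ∧ ¬ Nb w' p (p + ev d) ∧
      (∀ x, On d p x → p d < x d → x d ≤ p d + t → x ∉ w') ∧
      (∀ c, p d < c → c ≤ p d + t → Tr w' d c) ∧ (∀ c, p d ≤ c → c ≤ p d + t → cnt w' d c ≤ g) ∧
      (r' d ≤ p d ∨ p d + t < r' d) ∧ (hd w' d ≤ p d ∨ p d + t < hd w' d) := by
  induction t with
  | zero =>
    refine ⟨w, r, by simpa using Mv.refl hg, hw, by simpa using hP, hon, by simpa using hl, hnb,
      fun x _ h1 h2 => by omega, fun c h1 h2 => by omega, fun c h1 h2 => ?_, by omega, by omega⟩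
    rwa [show c = p d by omega]
  | succ t ih =>
    obtain ⟨u, r', h1, h2, h3, h4, h5, h6, h7, h8, h9, h10, h11⟩ := ih
    have hb := le_bx (lt_mem h2) d
    have hm := mv_flat (i := d) (c := p d) (η := 3 * g + j + t + 3) h1.good h2
      (fun e => e ▸ hp) (h9 _ le_rfl (by omega)) (h1.jn_le.trans hj) (by omega) (by omega)
    have hf : ∀ x, On d p x → p d < x d → x d ≤ p d + (t + 1 : ℕ) →
        x ∉ ins (flat d (p d)) d u := by
      intro x a b c e
      by_cases hx : x d = p d + 1
      · obtain rfl : x = p + ev d := ((on_add d p).symm.trans a).eq (by simpa using hx)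
        obtain ⟨v, v1, v2, v3⟩ := (gap_mem_ins (lip_flat d (p d)) (by simp [mem_flat])
          (by simp [mem_flat])).1 e
        rw [mem_flat] at v3
        rcases v2.of_ne (i := d) (by omega) with rfl | rfl
        · exact h6 v1
        · simp only [Pi.sub_apply, ev_same] at v3
          omega
      · have e1 : x = Ph (flat d (p d)) d (x - ev d) := by
          rw [Ph_mem (by simp only [mem_flat, Pi.sub_apply, ev_same]; omega), sub_add_cancel]
        rw [e1, Ph_mem_ins (lip_flat d (p d))] at e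
        refine h7 _ (a.trans (on_sub d x)) ?_ ?_ e <;> simp only [Pi.sub_apply, ev_same] <;> omega
    refine ⟨_, _, (h1.trans hm).mono le_rfl (by nlinarith), ins_ne_nil h2,
      by rw [pow_succ, mul_comm _ 2, mul_assoc]; exact h3.flat h1.good h2 (p d), fun k hk => ?_, ?_,
      fun e => hf _ (on_add d p) (by simp) (by simp) e.right, hf, fun c a b => ?_, fun c a b => ?_,
      ?_, ?_⟩
    · rw [lt_ins h2, Ph_ne hk]
      exact h4 k hk
    · rw [lt_ins h2, Ph_flat]
      split_ifs <;> omega
    · by_cases hc : c = p d + 1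
      · exact hc ▸ tr_flat_new u (p d)
      · have := (h8 (c - 1) (by omega) (by omega)).flat_same (p d)
        rwa [if_pos (by omega), sub_add_cancel] at this
    · refine (cnt_flat u (p d) c).trans (h9 _ ?_ ?_) <;> split_ifs <;> omega
    · rw [Ph_flat]
      split_ifs <;> omega
    · rw [hd_ins h2, Ph_flat]
      split_ifs <;> omega

theorem stair_single {e d : Fin 3} (hed : e ≠ d) {a b : ℤ} {k s : ℕ} (hk : k < s) {x u v : P}
    (hx : s < (x d - a).natAbs) (h1 : Adj x u) (h2 : Adj x v) (h3 : x ∉ stair e d a b (b + k))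
    (h4 : u ∈ stair e d a b (b + k)) (h5 : v ∈ stair e d a b (b + k)) : u = v := by
  have key : ∀ z, Adj x z → z ∈ stair e d a b (b + k) → z = x + ev e := fun z hz hm => by
    have h6 := two_coord_le hed x z
    have h7 : d1 x z = 1 := hz
    rw [mem_stair] at h3 hm
    rcases hz.of_ne (i := e) (by omega) with h | h
    · exact h
    · have h8 : z e = x e - 1 := by simp [h]
      omega
  rw [key u h1 h4, key v h2 h5]

theorem stair_far {e d : Fin 3} {a b : ℤ} {k s : ℕ} (hk : k < s) {x y : P} (h : x e = y e)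
    (hx : s ≤ (x d - a).natAbs) (hy : s ≤ (y d - a).natAbs) :
    x ∈ stair e d a b (b + k) ↔ y ∈ stair e d a b (b + k) := by
  rw [mem_stair, mem_stair]
  omega

theorem stair_near {e d : Fin 3} {a b : ℤ} {k : ℕ} {x : P} (hx : (x d - a).natAbs ≤ 1) :
    x ∈ stair e d a b (b + k) ↔ b < x e := by
  rw [mem_stair]
  omega

theorem stair_low {e d : Fin 3} {a b : ℤ} {k : ℕ} {x : P} (hx : x e ≤ b) :
    x ∉ stair e d a b (b + k) := by
  rw [mem_stair]
  omega

theorem stair_once {e d : Fin 3} (hed : e ≠ d) {a b : ℤ} {k s : ℕ} (hk : k < s) {w : List P}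
    (h8 : ∀ c : ℤ, (c - a).natAbs ≤ s → Tr w d c) : Once (stair e d a b (b + k)) w := by
  intro x u v n1 n2 a1 a2 c1 c2 c3
  by_cases hx : s < (x d - a).natAbs
  · exact stair_single hed hk hx a1 a2 c1 c2 c3
  · have t1 := h8 (x d) (by omega)
    rw [mem_stair] at c1 c2 c3
    rcases a1.of_ne (t1 x u n1 rfl).2 with rfl | rfl <;>
      rcases a2.of_ne (t1 x v n2 rfl).2 with rfl | rfl <;>
      simp only [Pi.add_apply, Pi.sub_apply, ev_same, ev_ne hed] at c2 c3 <;>
      first | rfl | omega

theorem stair_bd {e d : Fin 3} (hed : e ≠ d) {a b : ℤ} {k s g g' : ℕ} (hk : k < s) {w : List P}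
    (hcnt : cnt w e (b + k) ≤ g) (h9 : ∀ c : ℤ, (c - a).natAbs ≤ s → cnt w d c ≤ g') :
    (bd (stair e d a b (b + k)) e w).card ≤ g + (2 * s + 1) * g' := by
  refine le_trans (Finset.card_le_card (t := (w.toFinset.filter fun x => x e = b + k) ∪
    (Finset.Icc (a - s) (a + s)).biUnion fun c => w.toFinset.filter fun x => x d = c)
    fun x hx => ?_) ((Finset.card_union_le _ _).trans (add_le_add hcnt ?_))
  · simp only [bd, Finset.mem_filter, mem_stair, Pi.add_apply, ev_same, ev_ne hed.symm,
      Finset.mem_union, Finset.mem_biUnion, Finset.mem_Icc] at hx ⊢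
    by_cases h : s < (x d - a).natAbs
    · exact Or.inl ⟨hx.1, by omega⟩
    · exact Or.inr ⟨x d, by omega, hx.1, rfl⟩
  · refine (Finset.card_biUnion_le_card_mul _ _ g' fun c hc => ?_).trans ?_
    · rw [Finset.mem_Icc] at hc
      exact h9 c (by omega)
    · rw [Int.card_Icc]
      exact Nat.mul_le_mul_right _ (by omega)

theorem stair_row {e d : Fin 3} (hed : e ≠ d) {a b : ℤ} {k : ℕ} {w : List P} (h8 : Tr w d a)
    (x : P) (x1 : x d = a) (x2 : x e = b + 1) : x ∉ ins (stair e d a b (b + k)) e w := by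
  intro hx
  have x3 : (x - ev e) d = a := by simp [ev_ne hed.symm, x1]
  have x4 : (x - ev e) e = b := by simp [x2]
  rw [← sub_add_cancel x (ev e), gap_mem_ins (lip_stair hed _ _ _) (stair_low x4.le)
    (by rw [sub_add_cancel, stair_near (by omega)]; omega)] at hx
  obtain ⟨v, v1, v2, v3⟩ := hx
  have t1 := (h8 _ v v1 x3).2
  have t2 := two_coord_le hed (x - ev e) v
  have t3 : d1 (x - ev e) v = 1 := v2
  exact stair_low (by omega) v3

theorem stair_prot {e d : Fin 3} (hed : e ≠ d) {a b : ℤ} {k s m : ℕ} (hk : k < s) {w : List P}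
    {r : P} {J : Fin 3 → Prop} (hg : Good w) (hw : w ≠ []) (hP : Prot w r m J)
    (h10 : s < (r d - a).natAbs) (h11 : s < (hd w d - a).natAbs) :
    Prot (ins (stair e d a b (b + k)) e w) (Ph (stair e d a b (b + k)) e r) (2 * m)
      fun i => J i ∧ i ≠ e := by
  refine ⟨?_, fun i hi => ?_⟩
  · rw [hd_ins hw]
    exact hP.1.ins (lip_stair hed _ _ _) (hg.2 _ (hd_mem hw)) fun v v' a1 a2 =>
      stair_single hed hk h11 a1 a2
  · rw [Ph_ne hi.2]
    refine (hP.2 i hi.1).ins hi.2 fun x y x1 x2 x3 => ?_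
    have t2 := two_coord_le hi.2 x y
    have t3 : d1 x y = 1 := x2
    by_cases hid : i = d
    · subst hid
      exact stair_far hk (by omega) (by omega) (by omega)
    · have t4 := two_coord_le hid x y
      rw [mem_stair, mem_stair, show x d = y d by omega, show x e = y e by omega]

theorem stair_tr {e d : Fin 3} (hed : e ≠ d) {a b : ℤ} {k : ℕ} {w : List P} (h8 : Tr w d a) :
    Tr (ins (stair e d a b (b + k)) e w) d a := by
  refine h8.ins hed.symm fun x y x1 x2 x3 => ?_
  have t2 := two_coord_le hed x y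
  have t3 : d1 x y = 1 := x2
  rw [stair_near (by omega), stair_near (by omega), show x e = y e by omega]

theorem stair_step {w : List P} {p r : P} {d e : Fin 3} {s g g' j m : ℕ} {J : Fin 3 → Prop}
    (hs : 0 < s) (hed : e ≠ d) (he : e ≠ 2) (hg : Good w) (hw : w ≠ []) (hj : jn w ≤ j)
    (hlen : w.length ≤ s * g) (hp : 0 ≤ p 2) (hP : Prot w r m J) (h4 : On d p (lt w))
    (h5 : lt w d = p d ∨ lt w d = p d + (2 * s + 1 : ℕ) + 1)
    (h7 : ∀ x, On d p x → p d < x d → x d ≤ p d + (2 * s + 1 : ℕ) → x ∉ w)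
    (h8 : ∀ c, p d < c → c ≤ p d + (2 * s + 1 : ℕ) → Tr w d c)
    (h9 : ∀ c, p d ≤ c → c ≤ p d + (2 * s + 1 : ℕ) → cnt w d c ≤ g')
    (h10 : r d ≤ p d ∨ p d + (2 * s + 1 : ℕ) < r d)
    (h11 : hd w d ≤ p d ∨ p d + (2 * s + 1 : ℕ) < hd w d) :
    ∃ w' r' q, Mv 1 (3 * (g + (2 * s + 1) * g') + j + s + 3) w w' ∧ w' ≠ [] ∧
      Prot w' r' (2 * m) (fun k => J k ∧ k ≠ e) ∧ Conn w' (lt w') q (s + 2) ∧ Tr w' d (q d) ∧
      ∀ x, x d = q d → x e = q e → x ∉ w' := by
  obtain ⟨k, hk, hcnt⟩ := exists_sparse w.toFinset (fun x => x e) s g hs (hg.card ▸ hlen) (p e)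
  obtain ⟨a, ha⟩ : ∃ a : ℤ, a = p d + s + 1 := ⟨_, rfl⟩
  have g10 : s < (r d - a).natAbs := by omega
  have g11 : s < (hd w d - a).natAbs := by omega
  clear h10 h11
  have hl := lip_stair hed a (p e) (p e + k)
  have g8 : ∀ c : ℤ, (c - a).natAbs ≤ s → Tr w d c := fun c hc => h8 c (by omega) (by omega)
  have ho := stair_once (b := p e) hed hk g8
  have hbd := stair_bd (a := a) hed hk hcnt fun c hc => h9 c (by omega) (by omega)
  have hpr := stair_prot (b := p e) hed hk hg hw hP g10 g11
  clear g10 g11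
  have b1 := le_bx (lt_mem hw) d
  have b2 := le_bx (lt_mem hw) e
  have b3 := h4 e hed
  have hm := mv_ins (η := 3 * (g + (2 * s + 1) * g') + j + s + 3) hed hg hw ho
    (fun h => absurd h he) hbd hj (by omega) (by omega) (by omega) (by omega)
  clear b1 b2 b3 hbd
  have row := stair_row (b := p e) (k := k) hed (g8 a (by omega))
  have col : ∀ x, On d p x → Ph (stair e d a (p e) (p e + k)) e x = x := fun x hx =>
    Ph_not (stair_low (hx e hed).le)
  have q1 : (Function.update p d a + ev e) d = a := by simp [ev_ne hed.symm]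
  have q2 : (Function.update p d a + ev e) e = p e + 1 := by simp [Function.update_of_ne hed]
  have z : ∀ x, On d p x → p d < x d → 0 ≤ x 2 := fun x hx h => by
    by_cases h2 : d = 2
    · subst h2; omega
    · rw [hx 2 (Ne.symm h2)]; exact hp
  refine ⟨_, _, Function.update p d a + ev e, hm, ins_ne_nil hw, hpr, ?_,
    q1.symm ▸ stair_tr hed (g8 a (by omega)), fun x x1 x2 => row x (x1.trans q1) (x2.trans q2)⟩
  rw [lt_ins hw, col _ h4]
  have u1 : Function.update p d a d = a := by simp
  refine (conn_line (s + 1) (h4.symm.trans (on_update d p a)) (by omega) fun x hx h => ?_).step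
    (adj_ev _ e) (row _ q1 q2) ?_
  · have hx' := h4.trans hx
    have h12 : p d < x d ∧ x d ≤ p d + (2 * s + 1 : ℕ) := by omega
    refine ⟨fun c => h7 x hx' h12.1 h12.2 ?_, z x hx' h12.1⟩
    rwa [← col x hx', Ph_mem_ins hl] at c
  · have := z _ (on_update d p a) (by omega)
    simpa [ev_ne he.symm] using this

theorem wall {w : List P} {q r : P} {i : Fin 3} {s g j m m' : ℕ} {J : Fin 3 → Prop} (hs : 0 < s)
    (hg : Good w) (hw : w ≠ []) (hj : jn w ≤ j) (hlen : w.length ≤ s * g) (hP : Prot w r m J)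
    (hq : Conn w (lt w) q m') (hf : ∀ x, On i q x → x ∉ w) :
    ∃ w' r' q', Mv 1 (3 * g + j + m' + s + 2) w w' ∧ w' ≠ [] ∧ Prot w' r' (2 * m) J ∧
      Conn w' (lt w') q' (2 * (m' + s) + 1) ∧ On i q q' ∧ Tr w' i (q' i) ∧
      ∀ k c, k ≠ i → Tr w k c → Tr w' k c := by
  obtain ⟨k, hk, hcnt⟩ := exists_sparse w.toFinset (fun x => x i) s g hs (hg.card ▸ hlen) (q i)
  have hz := hg.2 _ (lt_mem hw)
  have hq2 := hq.nonneg hz
  have b1 := le_bx (lt_mem hw) i
  have b2 := (coord_le_d1 (lt w) q i).trans hq.dist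
  have hm := mv_flat (i := i) (c := q i + k) (η := 3 * g + j + m' + s + 2) hg hw
    (fun e => by subst e; omega) hcnt hj (by omega) (by omega)
  have u1 : Function.update q i (q i + k) i = q i + k := by simp
  have z : ∀ x, On i q x → q i ≤ x i → 0 ≤ x 2 := fun x hx h => by
    by_cases h2 : i = 2
    · subst h2; omega
    · rw [hx 2 (Ne.symm h2)]; exact hq2
  have c1 : Conn w (lt w) (Function.update q i (q i + k)) (m' + s) :=
    hq.trans (conn_line s (on_update i q _) (by omega) fun x hx h => ⟨hf x hx, z x hx (by omega)⟩)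
  have c2 := c1.flat (i := i) hz (q i + k)
  have n1 : Function.update q i (q i + k) ∉ flat i (q i + k) := by rw [mem_flat]; omega
  rw [← lt_ins hw, Ph_not n1] at c2
  have o1 := (on_update i q (q i + k)).trans (on_add i _)
  have u2 : (Function.update q i (q i + k) + ev i) i = q i + k + 1 := by simp
  refine ⟨_, _, Function.update q i (q i + k) + ev i, hm, ins_ne_nil hw, hP.flat hg hw _,
    c2.step (adj_ev _ i) (fun h => ?_) (z _ o1 (by omega)), o1, u2 ▸ tr_flat_new w _,
    fun k c hk h => h.flat_ne hk _⟩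
  obtain ⟨v, v1, -⟩ := (gap_mem_ins (lip_flat i _) n1 (by rw [mem_flat]; omega)).1 h
  exact hf _ (on_update i q _) v1.left

theorem nb_last {l : List P} {x y : P} (hx : x ∉ l) (h : Nb (l ++ [x]) x y) : y = lt l := by
  induction l with
  | nil => exact absurd h (not_nb_single _ _ _)
  | cons p l ih =>
    cases l with
    | nil =>
      rcases nb_cons.1 h with h | h | h
      · exact absurd (by simp [h.1]) hx
      · exact h.1
      · exact absurd h (not_nb_single _ _ _)
    | cons q m =>
      rcases nb_cons.1 h with h | h | h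
      · exact absurd (by simp [h.1]) hx
      · exact absurd (by simp [h.2]) hx
      · rw [lt_cons_cons]
        exact ih (fun e => hx (List.mem_cons_of_mem _ e)) h

theorem card_bad (V : Finset P) (k : Fin 3) {s g : ℕ} (h : V.card ≤ s * g) :
    ((V.image fun x => x k).filter fun c => g < (V.filter fun x => x k = c).card).card ≤ s := by
  set B := (V.image fun x => x k).filter fun c => g < (V.filter fun x => x k = c).card with hB
  have h2 : ∑ c ∈ B, (V.filter fun x => x k = c).card ≤ V.card := by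
    rw [← Finset.card_biUnion]
    · exact Finset.card_le_card (Finset.biUnion_subset.2 fun _ _ => Finset.filter_subset _ _)
    · intro a _ b _ hab
      exact Finset.disjoint_left.2 fun p ha hb =>
        hab ((Finset.mem_filter.1 ha).2.symm.trans (Finset.mem_filter.1 hb).2)
  have h3 := Finset.card_nsmul_le_sum B _ (g + 1) fun c hc => (Finset.mem_filter.1 hc).2
  rw [smul_eq_mul] at h3
  by_contra h4
  have h5 := Nat.mul_le_mul_right (g + 1) (show s + 1 ≤ B.card by omega)
  nlinarith

theorem pick {w : List P} {s g : ℕ} (hg : Good w) (h1 : s ^ 3 + 2 ≤ w.length)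
    (h2 : w.length ≤ s * g) : ∃ (l t : List P) (p : P) (d : Fin 3), w = l ++ t ∧ l ≠ [] ∧
      t.length ≤ s ^ 3 + 1 ∧ 0 ≤ p 2 ∧ cnt l d (p d) ≤ g ∧ On d p (lt l) ∧
      (lt l d = p d ∨ lt l d = p d + 1) ∧ ¬ Nb l p (p + ev d) := by
  obtain ⟨A, T, rfl, hT⟩ : ∃ A T, w = A ++ T ∧ T.length = s ^ 3 + 1 :=
    ⟨w.take (w.length - (s ^ 3 + 1)), w.drop (w.length - (s ^ 3 + 1)),
      (List.take_append_drop _ _).symm, by rw [List.length_drop]; omega⟩
  have hex : ∃ x ∈ T, ∃ k, cnt (A ++ T) k (x k) ≤ g := by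
    by_contra h
    push Not at h
    have h3 : T.toFinset ⊆ Fintype.piFinset fun k => (((A ++ T).toFinset.image fun x => x k).filter
        fun c => g < ((A ++ T).toFinset.filter fun x => x k = c).card) := fun x hx => by
      rw [List.mem_toFinset] at hx
      exact Fintype.mem_piFinset.2 fun k => Finset.mem_filter.2
        ⟨Finset.mem_image_of_mem (fun x : P => x k) (by simp [hx]), h x hx k⟩
    have h4 := Finset.card_le_card h3
    rw [(hg.sub (List.sublist_append_right A T)).card, Fintype.card_piFinset] at h4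
    have h5 := Finset.prod_le_pow_card Finset.univ _ s fun k _ =>
      card_bad (A ++ T).toFinset k (hg.card ▸ h2)
    simp only [Finset.card_univ, Fintype.card_fin] at h5
    omega
  obtain ⟨x, hx, d, hd⟩ := hex
  obtain ⟨T1, T2, rfl⟩ := List.append_of_mem hx
  have hA : A ++ T1 ≠ [] := fun e => by
    rw [List.append_eq_nil_iff] at e
    rw [e.1, List.nil_append] at h1
    omega
  have hz := hg.2 x (by simp)
  have hn : x ∉ A ++ T1 := fun e => by
    have := hg.1
    rw [← List.append_assoc] at this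
    exact List.disjoint_of_nodup_append this e (by simp)
  have hc : ∀ l : List P, (∀ y ∈ l, y ∈ A ++ (T1 ++ x :: T2)) → cnt l d (x d) ≤ g := fun l hl =>
    le_trans (Finset.card_le_card (Finset.filter_subset_filter _ fun y hy =>
      List.mem_toFinset.2 (hl y (List.mem_toFinset.1 hy)))) hd
  simp only [List.length_append, List.length_cons] at hT
  by_cases h : lt (A ++ T1) = x + ev d
  · refine ⟨A ++ T1, x :: T2, x, d, by simp, hA, by simp; omega, hz, hc _ fun y hy => ?_,
      h ▸ on_add d x, Or.inr (by simp [h]), fun e => hn e.left⟩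
    simp only [List.mem_append] at hy ⊢
    tauto
  · refine ⟨A ++ T1 ++ [x], T2, x, d, by simp, by simp, by omega, hz, hc _ fun y hy => ?_,
      by rw [lt_concat]; exact fun _ _ => rfl, Or.inl (by rw [lt_concat]),
      fun e => h (nb_last hn e).symm⟩
    simp only [List.mem_append, List.mem_cons] at hy ⊢
    tauto

end Pool.Agent.MP_7b45f6_mp.H32
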